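import Pool.Agent.Lib.MP_ca56d1_nt.CV.St
import Pool.Agent.Lib.MP_ca56d1_nt.D.Eig
import Pool.Agent.Lib.MP_ca56d1_nt.D.Gen

/-! The cyclic part of the group of fixed points at a prime of degree one. -/

namespace Pool.Agent.CU

open NumberField IsDedekindDomain Pool.Agent.Stark Pool.Agent.Stark.AR Pool.Agent.RM
  Pool.Agent.StarkD

variable {K : Type} [Field K] [NumberField K]

namespace CycBAux

theorem mem_fi {D : Dv K} {y : K} : y ∈ fi D ↔ ∀ r : Pr K, y ∈ pw (r.valuation K) (-D r) :=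
  ⟨fun h r => h.2 r (Finset.notMem_empty r),
    fun h => ⟨fun r hr => absurd hr (Finset.notMem_empty r), fun r _ => h r⟩⟩

theorem mul_mem {q : Pr K} {x y : K} {i j k : ℤ} (hx : x ∈ pw (q.valuation K) i)
    (hy : y ∈ pw (q.valuation K) j) (h : k ≤ i + j) : x * y ∈ pw (q.valuation K) k :=
  ComplAux.pw_mono h (pw_mul hx hy)

theorem of_og {q : Pr K} {x : K} {i : ℤ} (h : i ≤ og q x) : x ∈ pw (q.valuation K) i :=
  mem_pw_iff.2 (Or.inr h)

theorem res {p : ℕ} {q : Pr K} (hp : p.Prime) (hN : Ideal.absNorm q.asIdeal = p)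
    (h1 : og q (p : K) = 1) {y : K} (hy : y ∈ pw (q.valuation K) 0) (k : ℕ) :
    ∃ i : ℤ, y - i ∈ pw (q.valuation K) k := by
  induction k with
  | zero => exact ⟨0, by simpa using hy⟩
  | succ k ih =>
    obtain ⟨i, hi⟩ := ih
    have h0 : (p : K) ^ k ≠ 0 := pow_ne_zero _ (Nat.cast_ne_zero.2 hp.ne_zero)
    have h2 : ord (q.valuation K) ((p : K) ^ k) = k := by
      rw [ord_pow, ← og, h1, mul_one]
    obtain ⟨n, hn⟩ := EigAux.res_loc hp ((rc_wv q).trans hN) ((ComplAux.emb_mem_pw q _ 0).2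
      (ComplAux.pw_div (x := y - i) h0 (by rwa [h2, add_zero])))
    rw [← map_intCast (emb q), ← map_sub, ComplAux.emb_mem_pw] at hn
    refine ⟨i + n * p ^ k, ?_⟩
    have h3 := mul_mem (k := (k + 1 : ℕ)) hn (of_og h2.ge) (by omega)
    rw [sub_mul, div_mul_cancel₀ _ h0] at h3
    push_cast
    rwa [← sub_sub]

theorem exists_n {p : ℕ} (hp : p.Prime) (f : Pr K → ℕ) (T : Finset (Pr K))
    (h : ∀ r ∈ T, (p : 𝓞 K) ∉ r.asIdeal) :
    ∃ n : ℕ, ¬ p ∣ n ∧ ∀ r ∈ T, (n : K) ∈ pw (r.valuation K) (f r) := by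
  classical
  induction T using Finset.induction_on with
  | empty => exact ⟨1, hp.not_dvd_one, by simp⟩
  | insert s T hs ih =>
    obtain ⟨n, h1, h2⟩ := ih fun r hr => h r (Finset.mem_insert_of_mem hr)
    obtain ⟨h3, h4, -⟩ := Pool.Agent.Shared.PrimeZeta.pr_spec s.asIdeal s.isMaximal
    refine ⟨n * (Ideal.absNorm s.asIdeal).minFac ^ f s, fun e => ?_, fun r hr => ?_⟩
    · have h5 := (Nat.prime_dvd_prime_iff_eq hp h3).1
        (hp.dvd_of_dvd_pow ((hp.dvd_mul.1 e).resolve_left h1))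
      exact h s (Finset.mem_insert_self _ _) (h5 ▸ h4)
    · rw [Nat.cast_mul]
      rcases Finset.mem_insert.1 hr with rfl | hr
      · refine mul_mem (of_og (GenAux.og_nat r n)) (of_og ?_) (zero_add _).ge
        have h5 := (GenAux.og_nat_pos r h3.ne_zero).2 h4
        rw [Nat.cast_pow, og, ord_pow, ← og]
        nlinarith [Int.natCast_nonneg (f r)]
      · exact mul_mem (h2 r hr) (of_og (GenAux.og_nat r _)) (add_zero _).ge

end CycBAux

open CycBAux in
theorem cycB : CycSt K := by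
  classical
  intro e q p D hp hN h1 he hne h2 h3
  have h0 : e - 1 ≠ 0 := sub_ne_zero.2 hne
  have hp0 : (p : K) ≠ 0 := Nat.cast_ne_zero.2 hp.ne_zero
  have h4 : ∀ r : Pr K, e - 1 ∈ pw (r.valuation K) 0 := fun r =>
    sub_mem (of_og (he.2 r).ge) (by simpa using EigAux.int_mem (w := r.valuation K) 1)
  obtain ⟨a, ha⟩ : ∃ a : ℕ, og q (e - 1) = a + 1 :=
    ⟨(og q (e - 1) - 1).toNat, by
      have : 1 ≤ og q (e - 1) := (mem_pw_iff.1 h2).resolve_left h0
      omega⟩
  obtain ⟨g, g0, g1, g2⟩ := EigAux.exists_s ∅ 0 (D + Finsupp.single q (a : ℤ))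
    (Finset.notMem_empty q)
  rw [Finsupp.add_apply, Finsupp.single_eq_same] at g1
  have g3 : ∀ r, r ≠ q → g ∈ pw (r.valuation K) (-D r) := fun r hr => by
    simpa [Finsupp.single_eq_of_ne hr] using mem_fi.1 g2 r
  have hc0 : (p : K) ^ a * g ≠ 0 := mul_ne_zero (pow_ne_zero _ hp0) g0
  have hc : og q ((p : K) ^ a * g) = -D q - 1 := by
    rw [og, ord_mul (pow_ne_zero _ hp0) g0, ord_pow, ← og, ← og, h1, g1]
    ring
  have hc' : ∀ r, r ≠ q → (p : K) ^ a * g ∈ pw (r.valuation K) (-D r) := fun r hr =>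
    mul_mem (of_og (by simpa using GenAux.og_nat r (p ^ a))) (g3 r hr) (zero_add _).ge
  have key : ∀ (z s : K) (k : ℕ), s ≠ 0 → og q s = -D q - k →
      (∀ r, r ≠ q → s ∈ pw (r.valuation K) (-D r)) → z ∈ pw (q.valuation K) (-D q - k) →
      (∀ r, r ≠ q → z ∈ pw (r.valuation K) (-D r)) → ∃ i : ℤ, z - i * s ∈ fi D := by
    intro z s k s0 s1 s2 z1 z2
    obtain ⟨i, hi⟩ := res hp hN h1 (ComplAux.pw_div (x := z) s0 (by rwa [← og, s1, add_zero])) k
    refine ⟨i, mem_fi.2 fun r => ?_⟩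
    by_cases hr : r = q
    · have h5 := mul_mem (k := -D q) hi (of_og s1.ge) (by omega)
      rwa [sub_mul, div_mul_cancel₀ _ s0, ← hr] at h5
    · exact sub_mem (z2 r hr) (mul_mem (EigAux.int_mem i) (s2 r hr) (zero_add _).ge)
  obtain ⟨n, n1, n2⟩ := exists_n hp (fun r => (og r (e - 1)).toNat)
    ((dv (e - 1)).support.erase q) fun r hr hr' => by
      obtain ⟨h5, h6⟩ := Finset.mem_erase.1 hr
      have h7 : og r (e - 1) ≠ 0 := Finsupp.mem_support_iff.1 h6
      have h8 : 0 ≤ og r (e - 1) := ComplAux.mem_pw_zero.1 (h4 r)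
      exact h3 r h5 hr' (of_og (by omega))
  refine ⟨p ^ a * g, a, ⟨mem_fi.2 fun r => ?_, fun h => ?_, g, n, mem_fi.2 fun r => ?_,
    by simp, n1, fun x hx => ?_⟩, ha, hc, le_antisymm (sup_le (fun y hy => mem_fi.2 fun r => ?_)
      ((Submodule.span_singleton_le_iff_mem _ _).2 (mem_fi.2 fun r => ?_))) fun y hy => ?_⟩
  · by_cases hr : r = q
    · exact hr ▸ mul_mem (of_og h1.ge) (of_og hc.ge) (by omega)
    · exact mul_mem (of_og (GenAux.og_nat r p)) (hc' r hr) (zero_add _).ge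
  · have h5 : -D q ≤ og q _ := (mem_pw_iff.1 (mem_fi.1 h q)).resolve_left hc0
    omega
  · by_cases hr : r = q
    · exact hr ▸ mul_mem (of_og ha.ge) (of_og g1.ge) (by omega)
    · exact mul_mem (h4 r) (g3 r hr) (zero_add _).ge
  · have h5 : ∀ r : Pr K, x ∈ pw (r.valuation K) (-D r - og r (e - 1)) := fun r =>
      EigAux.cancel h0 rfl (by
        rw [mul_comm, ← og, add_sub_cancel]
        exact mem_fi.1 hx r)
    refine key _ g (a + 1) g0 (by push_cast; omega) g3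
      (mul_mem (of_og (GenAux.og_nat q n)) (h5 q) (by push_cast; omega)) fun r hr => ?_
    by_cases h6 : og r (e - 1) = 0
    · exact mul_mem (of_og (GenAux.og_nat r n)) (h5 r) (by omega)
    · exact mul_mem (n2 r (Finset.mem_erase.2 ⟨hr, Finsupp.mem_support_iff.2 h6⟩)) (h5 r)
        (by omega)
  · refine ComplAux.pw_mono ?_ (mem_fi.1 hy r)
    rw [Finsupp.add_apply, Finsupp.single_apply]
    split_ifs <;> omega
  · by_cases hr : r = q
    · rw [hr, Finsupp.add_apply, Finsupp.single_eq_same]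
      exact of_og (by omega)
    · simpa [Finsupp.single_eq_of_ne hr] using hc' r hr
  · obtain ⟨i, hi⟩ := key y _ 1 hc0 hc hc' (by simpa [sub_eq_add_neg, add_comm] using mem_fi.1 hy q)
      fun r hr => by simpa [Finsupp.single_eq_of_ne hr] using mem_fi.1 hy r
    exact Submodule.mem_sup.2 ⟨_, hi, i * (p ^ a * g), Submodule.mem_span_singleton.2
      ⟨i, zsmul_eq_mul _ _⟩, sub_add_cancel _ _⟩

end Pool.Agent.CU
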