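import Pool.Agent.Lib.MP_ca56d1_nt.CV.St
import Pool.Agent.Lib.MP_ca56d1_nt.D.LatH

/-! Valuation rings of the complex numbers over a prime, and finiteness of the class group. -/

namespace Pool.Agent.CU

open NumberField IsDedekindDomain Pool.Agent.Stark Pool.Agent.Stark.AR Pool.Agent.RM
  Pool.Agent.StarkD

variable {K : Type} [Field K] [NumberField K]

namespace OvAux

variable {σ : K →+* ℂ} {q : Pr K} {O : ValuationSubring ℂ}

theorem int_one (h : Over σ q O) {x : 𝓞 K} (hx : x ∉ q.asIdeal) : O.valuation (σ x) = 1 := by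
  obtain ⟨a, b, hb, e⟩ := q.isMaximal.exists_inv hx
  refine le_antisymm (h x).1 (not_lt.1 fun h1 => ?_)
  have h2 : σ ((a * x + b : 𝓞 K) : K) = σ a * σ x + σ b := by
    rw [← map_mul, ← map_add]
    rfl
  have h3 : O.valuation (σ a * σ x + σ b) < 1 := by
    refine O.valuation.map_add_lt ?_ ((h b).2 hb)
    rw [map_mul, mul_comm]
    exact mul_lt_one_of_lt_of_le h1 (h a).1
  rw [← h2, e] at h3
  simp at h3

theorem frac (h : Over σ q O) {x : K} (hx : x ∈ pw (q.valuation K) 0) :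
    ∃ n d : 𝓞 K, x * d = n ∧ O.valuation (σ x) = O.valuation (σ n) := by
  obtain ⟨n, d, e⟩ := q.exists_primeCompl_mul_eq_of_integer x (by simpa [mem_pw] using hx)
  refine ⟨n, d, e, ?_⟩
  have e' : x * ((d : 𝓞 K) : K) = n := e
  rw [← e', map_mul, map_mul, int_one h d.2, mul_one]

theorem le (h : Over σ q O) {x : K} (hx : x ∈ pw (q.valuation K) 0) : O.valuation (σ x) ≤ 1 := by
  obtain ⟨n, d, -, e⟩ := frac h hx
  exact e ▸ (h n).1

theorem lt (h : Over σ q O) {x : K} (hx : x ∈ pw (q.valuation K) 1) : O.valuation (σ x) < 1 := by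
  obtain ⟨n, d, e1, e⟩ := frac h (ComplAux.pw_mono zero_le_one hx)
  refine e ▸ (h n).2 ?_
  rw [← pow_one q.asIdeal, ← ComplAux.int_mem_pw, ← e1]
  simpa using AR.pw_mul hx (ComplAux.mem_pw_zero.2 (og_nonneg q d))

theorem one (h : Over σ q O) {x : K} (hx : x ≠ 0) (h0 : og q x = 0) : O.valuation (σ x) = 1 := by
  refine le_antisymm (le h (ComplAux.mem_pw_zero.2 h0.ge)) (not_lt.1 fun h1 => ?_)
  have h2 : O.valuation (σ x⁻¹) ≤ 1 := le h (ComplAux.mem_pw_zero.2 (by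
    rw [og] at h0
    rw [ord_inv, h0, neg_zero]))
  have h3 := mul_lt_one_of_lt_of_le h1 h2
  rw [← map_mul, ← map_mul, mul_inv_cancel₀ hx] at h3
  simp at h3

theorem alg (σ : K →+* ℂ) (q : Pr K) (z : ℂ) (hz : ∀ O, Over σ q O → O.valuation z ≤ 1) :
    IsAlgebraic ℚ z := by
  by_contra hn
  have hz0 : z ≠ 0 := by
    rintro rfl
    exact hn isAlgebraic_zero
  let _ := invertibleOfNonzero hz0
  let _ : Algebra (𝓞 K) ℂ := (σ.comp (algebraMap (𝓞 K) K)).toAlgebra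
  let B := Algebra.adjoin (𝓞 K) {z⁻¹}
  let y : B.toSubring := ⟨z⁻¹, Algebra.subset_adjoin rfl⟩
  have h1 : q.asIdeal.map (algebraMap (𝓞 K) B) ⊔ Ideal.span {y} ≠ ⊤ := fun e => by
    obtain ⟨p, hp, hpx⟩ := Algebra.exists_aeval_invOf_eq_zero_of_idealMap_adjoin_sup_span_eq_top
      (⅟z) q.asIdeal q.isPrime.ne_top e
    have h2 : IsAlgebraic (𝓞 K) z := ⟨p, fun h0 => q.isPrime.ne_top
      ((Ideal.eq_top_iff_one _).2 (by simpa [h0] using hp)), hpx⟩
    exact hn ((IsFractionRing.isAlgebraic_iff ℤ ℚ ℂ).1 (h2.restrictScalars_of_isIntegral ℤ))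
  obtain ⟨V, h2, hV⟩ := Ideal.image_subset_nonunits_valuationSubring (A := B.toSubring) _ h1
  have h3 := hz V fun x => ⟨(V.valuation_le_one_iff _).2 (h2 (B.algebraMap_mem x)), fun hx =>
    V.mem_nonunits_iff.1 (hV ⟨_, Ideal.mem_sup_left (Ideal.mem_map_of_mem _ hx), rfl⟩)⟩
  exact (V.inv_mem_nonunits_iff.1 (hV ⟨_, Ideal.mem_sup_right (Ideal.subset_span rfl),
    rfl⟩)).resolve_left hz0 ((V.valuation_le_one_iff z).1 h3)

end OvAux

theorem ovSt (σ : K →+* ℂ) : OvSt σ :=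
  ⟨fun _ _ h _ hx => OvAux.le h hx, fun _ _ h _ hx => OvAux.lt h hx,
    fun _ _ h _ hx h0 => OvAux.one h hx h0, OvAux.alg σ⟩

theorem clsSt (ρ : K →+* ℝ) : ClsSt ρ := by
  have := GenAux.fin ρ ∅ 0
  refine ⟨(Set.finite_range fun c : Cl ρ ∅ 0 => c.out).toFinset, fun D => ?_⟩
  obtain ⟨a, h1, h2, h3⟩ := cls_eq.1 (cls_out (cls ρ ∅ 0 D))
  refine ⟨_, (Set.Finite.mem_toFinset _).2 ⟨cls ρ ∅ 0 D, rfl⟩, a, h2, fun x => ?_⟩
  rw [← LatH.smul_lat ∅ 0 _ a (PS.of_ray h1),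
    show (cls ρ ∅ 0 D).out + dv a = D from Finsupp.ext fun q => (h3 q (by simp)).symm]

end Pool.Agent.CU
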