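import Pool.Agent.Lib.MP_ca56d1_nt.CV.Unit
import Pool.Agent.Lib.MP_ca56d1_nt.CV.Val
import Pool.Agent.Lib.MP_ca56d1_nt.D.Eig

/-! Units at the places over a good prime and the Kronecker congruence. -/

namespace Pool.Agent.CU.CV

open NumberField Pool.Agent.Stark Pool.Agent.Stark.AR Pool.Agent.RM Pool.Agent.StarkD

variable {K : Type} [Field K] [NumberField K] {ρ : K →+* ℝ} {σ : K →+* ℂ} {ε e : K} {q : Pr K}
  {p m n : ℕ} {O : ValuationSubring ℂ}

theorem isU_pow (h : IsU ε) (n : ℕ) : IsU (ε ^ n) :=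
  ⟨pow_ne_zero _ h.1, fun Q => by have := h.2 Q; rw [og] at *; rw [ord_pow, this, mul_zero]⟩

theorem isU_mem (h : IsU ε) (r : Pr K) : ε ∈ pw (r.valuation K) 0 :=
  ComplAux.mem_pw_zero.2 (h.2 r).ge

theorem pw_sub_pow {x y : K} (hx : x ∈ pw (q.valuation K) 0) (hy : y ∈ pw (q.valuation K) 0)
    (h : x - y ∈ pw (q.valuation K) 1) (n : ℕ) : x ^ n ∈ pw (q.valuation K) 0 ∧
      y ^ n ∈ pw (q.valuation K) 0 ∧ x ^ n - y ^ n ∈ pw (q.valuation K) 1 := by
  induction n with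
  | zero => simpa using EigAux.int_mem (w := q.valuation K) 1
  | succ n ih =>
    refine ⟨by simpa [pow_succ] using pw_mul ih.1 hx, by simpa [pow_succ] using pw_mul ih.2.1 hy, ?_⟩
    have := add_mem (add_zero (1 : ℤ) ▸ pw_mul ih.2.2 hx) (zero_add (1 : ℤ) ▸ pw_mul ih.2.1 h)
    convert this using 1
    ring

theorem p_mem (hG : Good e q p) : (p : K) ∈ pw (q.valuation K) 1 :=
  mem_pw_iff.2 (Or.inr hG.unr.ge)

theorem exists_res (hG : Good e q p) (hu : IsU ε) : ∃ η : ℤ, ε - η ∈ pw (q.valuation K) 1 ∧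
    (η : ZMod p) ≠ 0 ∧ ∀ n : ℕ, (η : ZMod p) ^ n = 1 → ε ^ n - 1 ∈ pw (q.valuation K) 1 := by
  obtain ⟨η, hη⟩ := EigAux.res_loc hG.prime ((rc_wv q).trans hG.norm)
    ((ComplAux.emb_mem_pw q ε 0).2 (isU_mem hu q))
  have h1 : ε - η ∈ pw (q.valuation K) 1 :=
    (ComplAux.emb_mem_pw q _ 1).1 (by rwa [map_sub, map_intCast])
  have dv : ∀ k : ℤ, (k : ZMod p) = 0 → (k : K) ∈ pw (q.valuation K) 1 := fun k hk => by
    obtain ⟨d, rfl⟩ := (ZMod.intCast_zmod_eq_zero_iff_dvd _ _).1 hk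
    simpa using pw_mul (p_mem hG) (EigAux.int_mem d)
  refine ⟨η, h1, fun h => ?_, fun n hn => ?_⟩
  · have := (mem_pw_iff.1 (add_mem h1 (dv η h))).resolve_left (by simpa using hu.1)
    have k := hu.2 q
    rw [sub_add_cancel] at this
    rw [og] at k
    omega
  · have := add_mem (pw_sub_pow (isU_mem hu q) (EigAux.int_mem η) h1 n).2.2
      (dv (η ^ n - 1) (by simp [hn]))
    simpa using this

theorem other (hG : Good (ε ^ m) q p) (hu : IsU ε) (hn : n ∣ 2 * m * (p - 1)) (q' : Pr K)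
    (h : q' ≠ q) (h' : (p : 𝓞 K) ∈ q'.asIdeal) : ε ^ n - 1 ∉ pw (q'.valuation K) 1 := fun k => by
  obtain ⟨d, e⟩ := hn
  refine hG.other q' h h' ?_
  have := (pw_sub_pow (isU_mem (isU_pow hu n) q') (by simpa using EigAux.int_mem 1) k d).2.2
  rwa [one_pow, ← pow_mul, ← e, mul_comm 2 m, mul_assoc, pow_mul] at this

theorem vals (hG : Good ε q p) (hu : IsU e) (h : e - 1 ∈ pw (q.valuation K) 1) (hO : Over σ q O) :
    O.valuation p < 1 ∧ O.valuation (σ e) = 1 ∧ O.valuation (σ e + 1) = 1 ∧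
      ∀ a : ℕ, og q (e - 1) = a + 1 → O.valuation (σ e - 1) ≤ O.valuation p ^ (a + 1) := by
  have v0 : O.valuation p < 1 := by simpa using OvAux.lt hO (p_mem hG)
  have p0 : (p : K) ≠ 0 := Nat.cast_ne_zero.2 hG.prime.ne_zero
  refine ⟨v0, OvAux.one hO hu.1 (hu.2 q), ?_, fun a ha => ?_⟩
  · refine val_of_cg (ξ := (2 : ℕ)) (val_coprime O hG.prime v0 fun k => ?_) ?_
    · have := Nat.le_of_dvd two_pos k
      have := hG.five
      omega
    · convert OvAux.lt hO h using 2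
      push_cast
      rw [map_sub, map_one]
      ring
  · have := OvAux.le hO (ComplAux.pw_div (x := e - 1) (j := 0) (pow_ne_zero (a + 1) p0)
      (mem_pw_iff.2 (Or.inr (by
        have := hG.unr
        rw [og] at this ha
        rw [ord_pow, this, ha]
        simp))))
    rw [map_div₀, map_div₀, div_le_one₀ (zero_lt_iff.2 (by simpa using hG.prime.ne_zero))] at this
    simpa using this

theorem elat (hu : IsU ε) (D : Dv K) : ELat ε (fi D) := LatH.latS.elat ∅ 0 D ε hu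

theorem unit_lvl (hC : CycSt K) (hU : PartU ρ σ) (hP : PartO2 ρ σ) (hε : Eps ρ σ ε) (hu : IsU ε)
    (hm : m ≠ 0) (hB : Big ρ (ε ^ m)) (hG : Good (ε ^ m) q p) (hO : Over σ q O)
    (hn : n ∣ 2 * m * (p - 1)) (D : Dv K) {y : K} (hy : (ε ^ n - 1) * y ∈ fi D) :
    O.valuation (uu ρ σ (ε ^ n) (fi D) y) = 1 := by
  have := Fact.mk hG.prime
  have p5 := hG.five
  have p1 : p - 1 ≠ 0 := by omega
  obtain ⟨η, -, η0, hη⟩ := exists_res hG hu
  have hE := eps_pow hε (mul_ne_zero hm p1)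
  have uE := isU_pow hu (m * (p - 1))
  have E1 := hη (m * (p - 1)) (by rw [mul_comm, pow_mul, ZMod.pow_card_sub_one_eq_one η0, one_pow])
  obtain ⟨v0, v1, v2, v3⟩ := vals hG uE E1 hO
  obtain ⟨d, e⟩ := hn
  have d0 : n * d ≠ 0 := e ▸ mul_ne_zero (mul_ne_zero two_ne_zero hm) p1
  have e2 : (ε ^ n) ^ d = (ε ^ (m * (p - 1))) ^ 2 := by
    rw [← pow_mul, ← pow_mul, ← e]; congr 1; ring
  have k := (uu_pow hU (eps_pow hε (left_ne_zero_of_mul d0)) (elat (isU_pow hu n) D) hy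
    (right_ne_zero_of_mul d0)).val_eq O
  rw [e2, map_pow, unit_core hU hP (by omega) hE O v0 v1 v2 (Set.range fi) ?_ ?_ ⟨D, rfl⟩
    (e2 ▸ (elat (isU_pow hu n) D).sharp_pow hy d)] at k
  · exact (pow_eq_one_iff_of_nonneg zero_le (right_ne_zero_of_mul d0)).1 k.symm
  · rintro _ ⟨D, rfl⟩
    obtain ⟨c, a, h1, h2, -, h3⟩ := hC _ q p D hG.prime hG.norm hG.unr uE (ne_one hE) E1
      (other hG hu ⟨2, by ring⟩)
    refine ⟨elat uE D, fun g hg => ?_, c, a, h1, v3 a h2, _, h3.symm⟩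
    obtain ⟨z, hz⟩ := hB.2
    rw [pow_mul]
    refine (elat (isU_pow hu m) D).sharp_pow ?_ _
    have := LatH.latS.mul ∅ 0 D D z _ (by simp)
      (fun r _ => by simpa using ComplAux.mem_pw_zero.2 (og_nonneg r z)) (add_mem hg hg)
    convert this using 1
    rw [hz]
    ring
  · obtain ⟨T, hT⟩ := clsSt ρ
    have hE2 := eps_pow hE two_ne_zero
    have uE2 := isU_pow uE 2
    choose s hs using fun D => exists_reps (elat uE D) (ne_one hE2)
    refine (T.finite_toSet.biUnion fun D _ => (s D).finite_toSet.image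
      fun g => StarkC.av O (uu ρ σ ((ε ^ (m * (p - 1))) ^ 2) (fi D) g)).subset ?_
    rintro _ ⟨_, ⟨D, rfl⟩, y, hy, rfl⟩
    obtain ⟨D', h1, a, h2, h3⟩ := hT D
    have hy' := (h3 _).2 hy
    rw [mul_left_comm] at hy'
    obtain ⟨g, ⟨g1, g2⟩, -⟩ := (hs D').2 _ hy'
    refine Set.mem_biUnion h1 ⟨g, g1, ?_⟩
    simp only [← hU.per _ _ _ _ g2]
    exact av_mu O (hU.ne _ _ _ hE2 (elat uE2 D') hy') (hU.ne _ _ _ hE2 (elat uE2 D) hy)
      (hU.hom _ _ _ y a hE2 (elat uE2 D) hy h2 h3)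

theorem partC_of (hC : CycSt K) (hU : PartU ρ σ) (hP : PartO2 ρ σ) : PartC ρ σ := by
  have un : ∀ ε (m : ℕ) q p, Eps ρ σ ε → IsU ε → m ≠ 0 → Big ρ (ε ^ m) → Good (ε ^ m) q p →
      ∀ O, Over σ q O → ∀ D y, (ε - 1) * y ∈ fi D → O.valuation (uu ρ σ ε (fi D) y) = 1 :=
    fun ε m q p hε hu hm hB hG O hO D y hy => by
      simpa using unit_lvl hC hU hP hε hu hm hB hG hO (one_dvd _) D (by simpa using hy)
  refine ⟨un, fun ε m q p hε hu hm hB hG D y hy => OvAux.alg σ q _ fun O hO =>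
    (un ε m q p hε hu hm hB hG O hO D y hy).le, ?_⟩
  rintro ε m q p hε hu hm hB hG D y hy ⟨q', hq, hq'⟩
  have := Fact.mk hG.prime
  obtain ⟨η, η1, η0, hη⟩ := exists_res hG hu
  have hk := ZMod.orderOf_dvd_card_sub_one η0
  have hr := IsPrimitiveRoot.orderOf (η : ZMod p)
  generalize orderOf (η : ZMod p) = k at hk hr
  have k0 : k ≠ 0 := by
    rintro rfl
    have := hG.five
    have := zero_dvd_iff.1 hk
    omega
  have hE := eps_pow hε k0
  have uE := isU_pow hu k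
  have E1 := hη k hr.pow_eq_one
  obtain ⟨c, a, h1, h2, h3, h4⟩ := hC _ q p D hG.prime hG.norm hG.unr uE (ne_one hE) E1
    (other hG hu (hk.mul_left _))
  have yn : y ∉ fi D ⊔ Submodule.span ℤ {c} := fun h => hq' (by
    have := (h4 ▸ h).2 q' (by simp)
    rwa [Finsupp.add_apply, Finsupp.single_eq_of_ne hq, add_zero] at this)
  have cm : c ∈ fi (D + pd q) := h4 ▸ by simpa using line_mem (L := fi D) c 1
  obtain ⟨ξ, x1, x2⟩ := orbit_gd (Ov := Over σ q) hU hε (elat hu D) (h4 ▸ elat hu _) h1.pc h1.nc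
    (η := η) (by
      rw [← sub_mul]
      refine EigAux.mul_down h3 ?_ η1
      rw [sub_mul]
      exact sub_mem (((elat hu _).stab c).2 cm) (EigAux.int_mul cm η)) k0 hr
    (h1.sh (elat uE D)) hy yn
    (cong_core hU hP hE (elat uE D) h1 (fun O hO => by
      obtain ⟨v0, v1, v2, v3⟩ := vals hG uE E1 hO
      refine ⟨v0, v1, v2, v3 a h2, fun z hz => ?_⟩
      rw [← pow_mul] at hz ⊢
      exact unit_lvl hC hU hP hε hu hm hB hG hO (by
        rw [mul_comm k, mul_assoc]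
        exact mul_dvd_mul_left _ (hk.mul_left _)) D hz) ((elat hu D).sharp_pow hy k)
      fun i h => yn (by simpa using sub_mem (Submodule.mem_sup_left h) (line_mem c i)))
  refine ⟨ξ, x1, fun O hO => ?_⟩
  have v := un ε m q p hε hu hm hB hG O hO D y hy
  have := x2 O hO
  rw [h4, div_sub' (pow_ne_zero _ (hU.ne _ _ _ hε (elat hu D) hy)), map_div₀, map_pow, v, one_pow,
    div_one, mul_comm] at this
  exact this

end Pool.Agent.CU.CV
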