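import Pool.Agent.Lib.MP_ca56d1_nt.CV.Gd
import Pool.Agent.Lib.MP_ca56d1_nt.CU.StO2

set_option linter.unusedSectionVars false
set_option linter.style.haveILetI false

namespace Pool.Agent.CU.CV

open Finset StarkC RM

variable {K : Type} [Field K] [CharZero K] {ρ : K →+* ℝ} {σ : K →+* ℂ} {ε E : K}
  {L : Submodule ℤ K} {Ov : ValuationSubring ℂ → Prop}

theorem ne_one (hE : Eps ρ σ E) : E ≠ 1 := fun e => by simpa [e] using hE.one_lt

theorem eps_pow (hE : Eps ρ σ E) {n : ℕ} (hn : n ≠ 0) : Eps ρ σ (E ^ n) :=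
  ⟨by rw [map_pow]; exact one_lt_pow₀ hE.one_lt hn, by
    rw [map_pow, map_pow, norm_pow, ← pow_mul, mul_comm n, pow_mul, ← mul_pow, hE.norm, one_pow]⟩

theorem uu_pow (hU : PartU ρ σ) (hε : Eps ρ σ ε) (hL : ELat ε L) {y : K} (hy : (ε - 1) * y ∈ L)
    {n : ℕ} (hn : n ≠ 0) : IsMu (uu ρ σ (ε ^ n) L y / uu ρ σ ε L y ^ n) := by
  by_cases h : y ∈ L
  · simp [uu, h, IsMu.one]
  have := hU.lin ε hε (ι := Bool) (fun _ => L) (fun _ => y) (fun b => cond b n 1)
    (fun b => cond b 1 (-n)) (fun _ => hL) (by rintro (_ | _) <;> simp [hn])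
    (by rintro (_ | _) <;> simp [hy, hL.sharp_pow hy]) (fun _ => h) fun x => by
      have e : ∀ j, x - ε ^ j * y ∈ L ↔ x - y ∈ L := fun j => by
        rw [← L.add_mem_iff_left (hL.sharp_pow hy j)]
        congr! 1; ring
      by_cases k : x - y ∈ L <;> simp [e, k]
  change Mu _
  simpa [div_eq_mul_inv] using this

theorem cong_core (hU : PartU ρ σ) (hP : PartO2 ρ σ) {p a : ℕ} [hp : Fact p.Prime]
    (hE : Eps ρ σ E) (hL : ELat E L) {c : K} (hc : Cyc p E L c a)
    (hO : ∀ O, Ov O → O.valuation p < 1 ∧ O.valuation (σ E) = 1 ∧ O.valuation (σ E + 1) = 1 ∧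
      O.valuation (σ E - 1) ≤ O.valuation p ^ (a + 1) ∧
      ∀ z, (E ^ 2 - 1) * z ∈ L → O.valuation (uu ρ σ (E ^ 2) L z) = 1)
    {y : K} (hy : (E - 1) * y ∈ L) (hy' : ∀ i : ℕ, y + i * c ∉ L) (i : ℕ) :
    Gd Ov (uu ρ σ E L (y + i * c) / uu ρ σ E L y) := by
  have c1 := hc.sh hL
  have sw : ∀ i : ℕ, (E - 1) * (y + i * c) ∈ L := fun i => shp_add hy (shp_nat c1 i)
  have y1 := shp_add hy c1
  have y2 : (E - 1) * (y + 2 * c) ∈ L := by simpa using sw 2
  have nc : -c ∉ L := fun h => hc.nc (by simpa using h)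
  obtain ⟨s, hs⟩ := exists_reps hL (ne_one hE)
  obtain ⟨h, hper, h1, b1, b2⟩ := hP E L hE hL y (y + 2 * c) (y + c) (y + c) (Or.inl ⟨hy, y2⟩)
    (Or.inl ⟨y1, y1⟩) (by convert L.zero_mem using 1; ring) (by simpa using nc)
    (by simpa using nc) (by convert hc.nc using 2; ring) (by convert hc.nc using 2; ring)
    ⟨0, by simp, by simpa using hy' 0, by simpa using hy' 2, by simpa using hy' 1,
      by simpa using hy' 1⟩
  have up : ∀ {x}, (E - 1) * x ∈ L → (E ^ 2 - 1) * x ∈ L := fun hx => hL.sharp_pow hx 2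
  obtain ⟨w, hw⟩ : ∃ w : ℕ → ℂ, ∀ i, w i = uu ρ σ E L (y + i * c) := ⟨_, fun _ => rfl⟩
  have w0 : ∀ i, w i ≠ 0 := fun i => hw i ▸ hU.ne _ _ _ hE hL (sw i)
  have pw : ∀ i, w (p + i) = w i := fun i => by
    rw [hw, hw]
    exact hU.per _ _ _ _ (by convert hc.pc using 1; push_cast; ring)
  have hd : ∀ i : ℕ, IsMu (h (i * c) / (w (i + 2) / w (i + 1) / (w (i + 1) / w i))) := by
    intro i
    have e0 : i * c + y = y + i * c := add_comm _ _
    have e1 : i * c + (y + c) = y + (i + 1 : ℕ) * c := by push_cast; ring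
    have e2 : i * c + (y + 2 * c) = y + (i + 2 : ℕ) * c := by push_cast; ring
    obtain ⟨j, k, hj⟩ := h1 (i * c) (shp_nat c1 i)
    rw [hj (e0 ▸ hy' i) (e2 ▸ hy' _) (e1 ▸ hy' _) (e1 ▸ hy' _), zpow_zero, one_mul, mono, e0, e1,
      e2] at k
    have sq := fun i => uu_pow hU hE hL (sw i) two_ne_zero
    have n := fun i => hU.ne _ _ _ (eps_pow hE two_ne_zero) (hL.pow 2) (up (sw i))
    simp only [← hw] at sq
    have k' := IsMu.mul k (((sq i).mul (sq (i + 2))).div ((sq (i + 1)).mul (sq (i + 1))))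
    have n0 := n i; have n1 := n (i + 1); have n2 := n (i + 2)
    have := w0 i; have := w0 (i + 1); have := w0 (i + 2)
    generalize uu ρ σ (E ^ 2) L (y + (i : ℕ) * c) = A at *
    generalize uu ρ σ (E ^ 2) L (y + (i + 1 : ℕ) * c) = B at *
    generalize uu ρ σ (E ^ 2) L (y + (i + 2 : ℕ) * c) = C at *
    refine IsMu.of_pow two_ne_zero ?_
    convert k' using 1
    generalize h (i * c) = H
    field_simp
  have h0 : ∀ i : ℕ, h (i * c) ≠ 0 := fun i e => by
    obtain ⟨n, hn, e'⟩ := hd i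
    simp [e, hn] at e'
  have hc1 : ∀ i : ℕ, Gd Ov (h ((i + 1 : ℕ) * c) / h (i * c)) := fun i => by
    refine ⟨1, IsMu.one, fun O k => ?_⟩
    obtain ⟨k0, k1, k2, k3, k4⟩ := hO O k
    haveI := charP_res O hp.out k0
    have m1 : ∀ {a b c d z}, (E - 1) * a ∈ L → (E - 1) * b ∈ L → (E - 1) * c ∈ L →
        (E - 1) * d ∈ L → (E ^ 2 - 1) * z ∈ L → O.valuation (mono ρ σ E L a b c d z) = 1 := by
      intro a b c d z ha hb hc hd hz
      rw [mono, map_div₀, map_mul, map_mul, k4 _ (shp_add hz (up ha)), k4 _ (shp_add hz (up hb)),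
        k4 _ (shp_add hz (up hc)), k4 _ (shp_add hz (up hd))]
      simp
    have hv : ∀ x, (E - 1) * x ∈ L → O.valuation (h x) = 1 := fun x hx => by
      obtain ⟨j, e, -⟩ := h1 x hx
      have := IsMu.val_eq e O
      rw [map_mul, map_zpow₀, k1, m1 hy y2 y1 y1 (up hx), one_zpow, mul_one, map_pow] at this
      exact (pow_eq_one_iff_left two_ne_zero).1 this
    have hv' : ∀ n : ℕ, O.valuation (h (n * c)) = 1 := fun n => hv _ (shp_nat c1 n)
    have d1 := line_deg O k0 hL (ne_one hE) hc hs (fun x y _ _ e => hper x y e) one_ne_zero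
      (fun x hx => by simp [hv x hx])
      fun Z hZ => (b1 O 1 s hs k1 k2 (fun z hz => by simp [m1 hy y2 y1 y1 hz]) Z hZ).trans
        (mul_le_mul_left k3 _)
    have d2 := line_deg O k0 hL (ne_one hE) hc hs (h := fun x => (h x)⁻¹)
      (fun x y _ _ c => by rw [hper x y c]) one_ne_zero (fun x hx => by simp [hv x hx])
      fun Z hZ => (b2 O 1 s hs k1 k2 (fun z hz => by simp [m1 y1 y1 hy y2 hz]) Z hZ).trans
        (mul_le_mul_left k3 _)
    have hz : ∀ n : ℕ, h (((n : ZMod p).val : ℕ) * c) = h (n * c) := fun n => by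
      refine hper _ _ ?_
      obtain ⟨m, hm⟩ : (p : ℤ) ∣ ((n : ZMod p).val : ℤ) - n := by
        rw [← ZMod.intCast_zmod_eq_zero_iff_dvd]; simp
      have hm' : (((n : ZMod p).val : ℕ) : K) - n = p * m := by exact_mod_cast hm
      convert L.smul_mem m hc.pc using 1
      rw [zsmul_eq_mul]; linear_combination c * hm'
    have := const_of_deg (u := (1 : ZMod p)) (by simp) (by
      ext i
      simp only [Pi.mul_apply, div_one, Pi.one_apply]
      rw [← red_mul (hv' _).le (by rw [map_inv₀, hv', inv_one]),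
        mul_inv_cancel₀ (h0 _), red_one]) (by have := hp.out.two_le; omega) d1 d2 (i : ZMod p)
    simp only [div_one, ← Nat.cast_succ, hz] at this
    rw [div_sub_one (h0 i), map_div₀, hv', div_one]
    exact (red_eq_iff (hv' _).le (hv' _).le).1 this
  have g2 := gd_step (w := fun i => w (i + 1) / w i) hp.out (fun O k => (hO O k).1)
    (fun i => div_ne_zero (w0 _) (w0 _)) (by
      have := pw 0
      rw [add_zero] at this
      rw [pw 1, this, zero_add, div_self (div_ne_zero (w0 _) (w0 _))]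
      exact IsMu.one) fun i => by
      have := ((hd i).gd.mul (hc1 i)).div (hd (i + 1)).gd
      convert this using 1
      have := h0 i; have := h0 (i + 1)
      have := w0 i; have := w0 (i + 1); have := w0 (i + 2); have := w0 (i + 3)
      generalize h (i * c) = A at *
      generalize h ((i + 1 : ℕ) * c) = B at *
      field_simp
  have g1 := gd_step hp.out (fun O k => (hO O k).1) w0 (by
    have := pw 0
    rw [add_zero] at this
    rw [this, div_self (w0 0)]
    exact IsMu.one) g2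
  simpa [hw] using gd_tel w0 g1 i

end Pool.Agent.CU.CV
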