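import Pool.Agent.Lib.MP_ca56d1_nt.CV.St
import Pool.Agent.Lib.MP_ca56d1_nt.D.Eig
import Pool.Agent.Lib.MP_ca56d1_nt.D.LatH

/-! The cyclic `p`-part of the group of fixed points. -/

namespace Pool.Agent.CU

open NumberField IsDedekindDomain Pool.Agent.Stark Pool.Agent.Stark.AR Pool.Agent.RM
  Pool.Agent.StarkD

variable {K : Type} [Field K] [NumberField K]

namespace CycJ

theorem mem_fi {D : Dv K} {y : K} : y ∈ fi D ↔ ∀ r : Pr K, y ∈ pw (r.valuation K) (-D r) :=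
  ⟨fun h r => h.2 r (Finset.notMem_empty r),
    fun h => ⟨fun r hr => absurd hr (Finset.notMem_empty r), fun r _ => h r⟩⟩

theorem mem_fi' {D : Dv K} {y : K} (q : Pr K) (h1 : y ∈ pw (q.valuation K) (-D q))
    (h2 : ∀ r : Pr K, r ≠ q → y ∈ pw (r.valuation K) (-D r)) : y ∈ fi D :=
  mem_fi.2 fun r => by
    by_cases e : r = q
    · rw [e]
      exact h1
    · exact h2 r e

theorem int_mul (r : Pr K) {j : ℤ} {y : K} (h : y ∈ pw (r.valuation K) j) (n : ℤ) :
    (n : K) * y ∈ pw (r.valuation K) j := by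
  rw [← zsmul_eq_mul]
  exact zsmul_mem h n

theorem nat_mul (r : Pr K) {j : ℤ} {y : K} (h : y ∈ pw (r.valuation K) j) (n : ℕ) :
    (n : K) * y ∈ pw (r.valuation K) j := by
  simpa using int_mul r h n

theorem one {p : ℕ} (hp : p.Prime) {q : Pr K} (hN : Ideal.absNorm q.asIdeal = p) {s z : K} {m : ℤ}
    (s0 : s ≠ 0) (hs : og q s = m) (hz : z ∈ pw (q.valuation K) m) :
    ∃ n : ℤ, z - n * s ∈ pw (q.valuation K) (m + 1) := by
  have h2 : z / s ∈ pw (q.valuation K) 0 := by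
    refine ComplAux.pw_div s0 ?_
    rw [og] at hs
    rwa [hs, add_zero]
  obtain ⟨n, hn⟩ := EigAux.res_loc hp ((rc_wv q).trans hN) ((ComplAux.emb_mem_pw q _ 0).2 h2)
  have h3 : z / s - n ∈ pw (q.valuation K) 1 := by
    refine (ComplAux.emb_mem_pw q _ 1).1 ?_
    rwa [map_sub, map_intCast]
  have h4 := pw_mul h3 (hs ▸ LatH.self_mem q s)
  refine ⟨n, ?_⟩
  rwa [show (z / s - n) * s = z - n * s by field_simp, add_comm] at h4

theorem og_mul {p : ℕ} (hp : p.Prime) {q : Pr K} (h1 : og q (p : K) = 1) {g : K} (g0 : g ≠ 0)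
    (k : ℕ) : (p : K) ^ k * g ≠ 0 ∧ og q ((p : K) ^ k * g) = k + og q g := by
  have h0 : (p : K) ^ k ≠ 0 := pow_ne_zero _ (Nat.cast_ne_zero.2 hp.ne_zero)
  refine ⟨mul_ne_zero h0 g0, ?_⟩
  rw [og] at h1
  rw [og, og, ord_mul h0 g0, ord_pow, h1, mul_one]

theorem gen {p : ℕ} (hp : p.Prime) {q : Pr K} (hN : Ideal.absNorm q.asIdeal = p)
    (h1 : og q (p : K) = 1) {D : Dv K} {g : K} {a : ℕ} (g0 : g ≠ 0) (hg : og q g = -D q - a - 1)
    (hr : ∀ r : Pr K, r ≠ q → g ∈ pw (r.valuation K) (-D r)) (j : ℕ) (hj : j ≤ a + 1) (z : K)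
    (z1 : z ∈ pw (q.valuation K) (-D q - j))
    (z2 : ∀ r : Pr K, r ≠ q → z ∈ pw (r.valuation K) (-D r)) : ∃ i : ℤ, z - i * g ∈ fi D := by
  induction j generalizing z with
  | zero => exact ⟨0, by simpa using mem_fi' q (by simpa using z1) z2⟩
  | succ j ih =>
    obtain ⟨k, rfl⟩ : ∃ k, a = j + k := Nat.exists_eq_add_of_le (by omega)
    obtain ⟨s0, s1⟩ := og_mul hp h1 g0 k
    obtain ⟨n, hn⟩ := one hp hN s0 (m := -D q - (j + 1 : ℕ)) (by rw [s1, hg]; push_cast; ring) z1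
    obtain ⟨i, hi⟩ := ih (by omega) (z - n * (p ^ k * g))
      (ComplAux.pw_mono (by push_cast; omega) hn) fun r e =>
        sub_mem (z2 r e) (int_mul r (by simpa using nat_mul r (hr r e) (p ^ k)) n)
    refine ⟨n * p ^ k + i, ?_⟩
    convert hi using 1
    push_cast
    ring

theorem exists_nat {p : ℕ} (hp : p.Prime) (q : Pr K) {x : K}
    (h : ∀ r : Pr K, r ≠ q → (p : 𝓞 K) ∈ r.asIdeal → x ∉ pw (r.valuation K) 1) :
    ∃ n : ℕ, ¬ p ∣ n ∧ ∀ r : Pr K, r ≠ q → (n : K) ∈ pw (r.valuation K) (og r x) := by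
  have h0 : ∀ (r : Pr K) (n : ℕ), (n : K) ∈ pw (r.valuation K) 0 := fun r n =>
    ComplAux.mem_pw_zero.2 (GenAux.og_nat r n)
  have key : ∀ r : Pr K, ∃ m : ℕ, ¬ p ∣ m ∧ (r ≠ q → (m : K) ∈ pw (r.valuation K) (og r x)) := by
    intro r
    by_cases e : r ≠ q ∧ 0 < og r x
    · have h1 : (p : 𝓞 K) ∉ r.asIdeal := fun hm => h r e.1 hm (mem_pw_iff.2 (Or.inr e.2))
      have hN : Ideal.absNorm r.asIdeal ≠ 0 := fun e0 => r.ne_bot (Ideal.absNorm_eq_zero_iff.1 e0)
      obtain ⟨k, m, hm, e1⟩ := Nat.exists_eq_pow_mul_and_not_dvd hN p hp.ne_one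
      have h2 := Ideal.absNorm_mem r.asIdeal
      rw [e1, Nat.cast_mul, Nat.cast_pow] at h2
      have h3 : (m : 𝓞 K) ∈ r.asIdeal :=
        (r.isPrime.mem_or_mem h2).resolve_left fun h4 => h1 (r.isPrime.mem_of_pow_mem _ h4)
      have m0 : m ≠ 0 := fun e0 => hm (e0 ▸ dvd_zero p)
      have h4 := (GenAux.og_nat_pos r m0).2 h3
      refine ⟨m ^ (og r x).toNat, fun hd => hm (hp.dvd_of_dvd_pow hd), fun _ => ?_⟩
      refine mem_pw_iff.2 (Or.inr ?_)
      rw [Nat.cast_pow, ord_pow, Int.toNat_of_nonneg e.2.le]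
      exact le_mul_of_one_le_right e.2.le h4
    · exact ⟨1, hp.not_dvd_one, fun e1 =>
        ComplAux.pw_mono (not_lt.1 fun e2 => e ⟨e1, e2⟩) (h0 r 1)⟩
  choose m m1 m2 using key
  refine ⟨∏ r ∈ (dv x).support, m r, fun hd => ?_, fun r e => ?_⟩
  · obtain ⟨r, -, hr⟩ := (Prime.dvd_finsetProd_iff hp.prime _).1 hd
    exact m1 r hr
  · by_cases hr : r ∈ (dv x).support
    · obtain ⟨c, hc⟩ := Finset.dvd_prod_of_mem m hr
      rw [hc, Nat.cast_mul, mul_comm]
      exact nat_mul r (m2 r e) c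
    · rw [show og r x = 0 from Finsupp.notMem_support_iff.1 hr]
      exact h0 r _

end CycJ

open CycJ in
theorem cycSt : CycSt K := by
  classical
  intro e q p D hp hN h1 hu he h2 h3
  have e0 : e - 1 ≠ 0 := sub_ne_zero.2 he
  have hA : 1 ≤ og q (e - 1) := (mem_pw_iff.1 h2).resolve_left e0
  obtain ⟨a, ha⟩ : ∃ a : ℕ, og q (e - 1) = a + 1 := ⟨(og q (e - 1) - 1).toNat, by omega⟩
  obtain ⟨g, g0, g1, g2⟩ := EigAux.exists_s ∅ 0 (D + Finsupp.single q (a : ℤ))
    (Finset.notMem_empty q)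
  rw [Finsupp.add_apply, Finsupp.single_eq_same] at g1
  have hg : og q g = -D q - a - 1 := by omega
  have hr : ∀ r : Pr K, r ≠ q → g ∈ pw (r.valuation K) (-D r) := fun r hne => by
    have h4 := mem_fi.1 g2 r
    rwa [Finsupp.add_apply, Finsupp.add_apply, Finsupp.single_eq_of_ne hne,
      Finsupp.single_eq_of_ne hne, add_zero, add_zero] at h4
  obtain ⟨c0, c1⟩ := CycJ.og_mul hp h1 g0 a
  have hc : og q ((p : K) ^ a * g) = -D q - 1 := by omega
  have cq : (p : K) ^ a * g ∈ pw (q.valuation K) (-D q - 1) := hc ▸ LatH.self_mem q _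
  have cr : ∀ r : Pr K, r ≠ q → (p : K) ^ a * g ∈ pw (r.valuation K) (-D r) := fun r hne => by
    simpa using CycJ.nat_mul r (hr r hne) (p ^ a)
  obtain ⟨n, n1, n2⟩ := CycJ.exists_nat hp q h3
  refine ⟨p ^ a * g, a, ⟨mem_fi' q ?_ fun r hne => CycJ.nat_mul r (cr r hne) p, fun h => ?_,
    g, n, mem_fi' q ?_ fun r hne => ?_, by simp, n1, fun x hx => ?_⟩, ha, hc, ?_⟩
  · exact ComplAux.pw_mono (by omega) (pw_mul (LatH.self_mem q (p : K)) cq)
  · have h4 := (mem_pw_iff.1 (mem_fi.1 h q)).resolve_left c0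
    rw [og] at hc
    omega
  · exact ComplAux.pw_mono (by omega) (pw_mul (LatH.self_mem q (e - 1)) (LatH.self_mem q g))
  · have h4 : e - 1 ∈ pw (r.valuation K) 0 :=
      sub_mem (ComplAux.mem_pw_zero.2 (hu.2 r).ge) (mem_pw_iff.2 (Or.inr ord_one.ge))
    exact ComplAux.pw_mono (by omega) (pw_mul h4 (hr r hne))
  · have h4 := fun r => (LatH.mul_iff r e0 x _).1 (mem_fi.1 hx r)
    refine CycJ.gen hp hN h1 g0 hg hr (a + 1) le_rfl _ (CycJ.nat_mul q ?_ n) fun r hne => ?_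
    · exact ComplAux.pw_mono (by push_cast; omega) (h4 q)
    · exact ComplAux.pw_mono (by omega) (pw_mul (n2 r hne) (h4 r))
  · refine le_antisymm (sup_le (fun y hy => mem_fi.2 fun r => ?_)
      ((Submodule.span_singleton_le_iff_mem _ _).2 (mem_fi' q ?_ fun r hne => ?_))) fun y hy => ?_
    · refine ComplAux.pw_mono ?_ (mem_fi.1 hy r)
      rw [Finsupp.add_apply, Finsupp.single_apply]
      split_ifs <;> omega
    · rw [Finsupp.add_apply, Finsupp.single_eq_same]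
      exact ComplAux.pw_mono (by omega) cq
    · rw [Finsupp.add_apply, Finsupp.single_eq_of_ne hne, add_zero]
      exact cr r hne
    · have h4 := mem_fi.1 hy q
      rw [Finsupp.add_apply, Finsupp.single_eq_same] at h4
      obtain ⟨i, hi⟩ := CycJ.one hp hN c0 hc (ComplAux.pw_mono (by omega) h4)
      have h5 : y - i * (p ^ a * g) ∈ fi D := by
        refine mem_fi' q (ComplAux.pw_mono (by omega) hi) fun r hne => ?_
        have h6 := mem_fi.1 hy r
        rw [Finsupp.add_apply, Finsupp.single_eq_of_ne hne, add_zero] at h6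
        exact sub_mem h6 (CycJ.int_mul r (cr r hne) i)
      rw [show y = (y - i * (p ^ a * g)) + i * (p ^ a * g) by ring]
      exact Submodule.add_mem_sup h5 (EigAux.int_mul (Submodule.mem_span_singleton_self _) i)

end Pool.Agent.CU
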