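import Pool.Agent.Lib.MP_ca56d1_nt.CV.Cong

set_option linter.unusedSectionVars false
set_option linter.style.haveILetI false

namespace Pool.Agent.CU.CV

open Finset StarkC RM

variable {K : Type} [Field K] [CharZero K] {ρ : K →+* ℝ} {σ : K →+* ℂ} {ε E : K}
  {L L' : Submodule ℤ K}

theorem av_mu (O : ValuationSubring ℂ) {z w : ℂ} (hz : z ≠ 0) (hw : w ≠ 0) (h : IsMu (z / w)) :
    av O z = av O w := (av_eq hz hw).2 (h.val_eq O)

theorem dist_val (hU : PartU ρ σ) (hε : Eps ρ σ ε) (hL : ELat ε L) (hL' : ELat ε L') (hle : L ≤ L')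
    {A : Type} [Fintype A] (r : A → K) (h1 : ∀ a, r a ∈ L') (h2 : ∀ a, (ε - 1) * r a ∈ L)
    (h3 : ∀ x ∈ L', ∃! a, x - r a ∈ L) (O : ValuationSubring ℂ) {y : K} (hy : (ε - 1) * y ∈ L) :
    av O (uu ρ σ ε L' y) = ∑ a, av O (uu ρ σ ε L (y + r a)) := by
  classical
  have n0 : ∀ a, uu ρ σ ε L (y + r a) ≠ 0 := fun a => hU.ne _ _ _ hε hL (shp_add hy (h2 a))
  by_cases h : y ∈ L'
  · have hx : ∀ a, -y - (y + r a) ∈ L' := fun a =>
      L'.sub_mem (L'.neg_mem h) (L'.add_mem h (h1 a))
    choose φ hφ _ using fun a => h3 _ (hx a)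
    have inj : Function.Injective φ := fun a b e => (h3 _ (h1 a)).unique (by simp) (by
      have := L.sub_mem (hφ b) (e ▸ hφ a)
      convert this using 1; ring)
    have e1 := (Finite.injective_iff_bijective.1 inj).sum_comp
      fun a => av O (uu ρ σ ε L (y + r a))
    have e2 : ∀ a, av O (uu ρ σ ε L (y + r (φ a))) = -av O (uu ρ σ ε L (y + r a)) := fun a => by
      have k := hU.odd _ _ _ hε hL (shp_add hy (h2 a))
      rw [hU.per ε L (-(y + r a)) (y + r (φ a)) (by convert hφ a using 1; ring)] at k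
      have := (av_eq_zero (mul_ne_zero (n0 _) (n0 _))).2 (IsMu.val k O)
      rw [av_mul (n0 _) (n0 _)] at this
      exact eq_neg_of_add_eq_zero_right this
    simp only [e2, sum_neg_distrib] at e1
    rw [uu, if_pos h, av_one]
    exact (neg_eq_self.1 e1).symm
  · have := hU.lin ε hε (ι := Option A) (fun o => o.elim L' fun _ => L)
      (fun o => o.elim y fun a => y + r a) (fun _ => 1) (fun o => o.elim 1 fun _ => -1)
      (by rintro (_ | a) <;> assumption) (fun _ => one_ne_zero)
      (by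
        rintro (_ | a)
        · simpa using hle hy
        · simpa using shp_add hy (h2 a))
      (by
        rintro (_ | a)
        · exact h
        · exact fun e => h ((L'.add_mem_iff_left (h1 a)).1 (hle e))) fun x => by
        simp only [Fintype.sum_option, range_one, sum_singleton, pow_zero, one_mul, Option.elim,
          ← sub_sub]
        by_cases k : x - y ∈ L'
        · obtain ⟨a, ha, hu⟩ := h3 _ k
          rw [sum_eq_single a (fun b _ hb => if_neg fun e => hb (hu b e)) (by simp), if_pos k,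
            if_pos ha]
          simp
        · rw [if_neg k, zero_add]
          exact sum_eq_zero fun a _ => if_neg fun e => k (by simpa using L'.add_mem (hle e) (h1 a))
    rw [← av_prod _ _ n0]
    refine av_mu O (hU.ne _ _ _ hε hL' (hle hy)) (prod_ne_zero_iff.2 fun a _ => n0 a) ?_
    change Mu _
    simpa [Fintype.prod_option, div_eq_mul_inv] using this

theorem int_mem {p : ℕ} [hp : Fact p.Prime] {c : K} (pc : (p : K) * c ∈ L) (nc : c ∉ L) (k : ℤ) :
    (k : K) * c ∈ L ↔ (k : ZMod p) = 0 := by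
  rw [ZMod.intCast_zmod_eq_zero_iff_dvd]
  refine ⟨dvd_of_mem hp.out pc nc, ?_⟩
  rintro ⟨d, rfl⟩
  convert L.smul_mem d pc using 1
  rw [zsmul_eq_mul]; push_cast; ring

theorem line_mem (c : K) (i : ℕ) : (i : K) * c ∈ L ⊔ Submodule.span ℤ {c} :=
  Submodule.mem_sup_right (Submodule.mem_span_singleton.2 ⟨i, by simp⟩)

theorem line_reps {p : ℕ} [hp : Fact p.Prime] {c : K} (pc : (p : K) * c ∈ L) (nc : c ∉ L) :
    ∀ x ∈ L ⊔ Submodule.span ℤ {c}, ∃! i : ZMod p, x - i.val * c ∈ L := by
  intro x hx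
  obtain ⟨l, hl, _, ⟨k, rfl⟩, e⟩ := by
    simpa only [Submodule.mem_sup, Submodule.mem_span_singleton] using hx
  have key : ∀ i : ZMod p, x - i.val * c ∈ L ↔ i = k := fun i => by
    have : x - i.val * c = l + ((k - (i.val : ℤ) : ℤ) : K) * c := by
      rw [← e, zsmul_eq_mul]; push_cast; ring
    rw [this, L.add_mem_iff_right hl, int_mem pc nc]
    simp [sub_eq_zero, eq_comm]
  exact ⟨k, (key _).2 rfl, fun i hi => (key i).1 hi⟩

theorem orb_sum {p n : ℕ} [Fact p.Prime] (hn : n ≠ 0) {η : ZMod p} (hη : IsPrimitiveRoot η n) :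
    ∃ R : Finset (ZMod p), ∃ r : ZMod p → ZMod p, ∀ φ : ZMod p → ℤ,
      ∑ a, φ a = φ 0 + ∑ b ∈ R, ∑ j ∈ range n, φ (η ^ j * r b) := by
  classical
  haveI : NeZero n := ⟨hn⟩
  have ex : ∀ b : ZMod p, ∃ r : ZMod p, b ∈ (univ.erase 0).image (fun a : ZMod p => a ^ n) →
      r ≠ 0 ∧ r ^ n = b := fun b => by
    by_cases h : b ∈ (univ.erase 0).image (fun a : ZMod p => a ^ n)
    · obtain ⟨r, hr, e⟩ := mem_image.1 h
      exact ⟨r, fun _ => ⟨ne_of_mem_erase hr, e⟩⟩
    · exact ⟨0, fun k => absurd k h⟩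
  choose r hr using ex
  refine ⟨(univ.erase 0).image fun a : ZMod p => a ^ n, r, fun φ => ?_⟩
  rw [← add_sum_erase _ _ (mem_univ 0), ← sum_fiberwise_of_maps_to
    (g := fun a : ZMod p => a ^ n) fun a ha => mem_image_of_mem _ ha]
  congr 1
  refine sum_congr rfl fun b hb => ?_
  obtain ⟨r0, e⟩ := hr b hb
  rw [← sum_image (g := fun j => η ^ j * r b) fun i hi j hj e =>
    hη.pow_inj (by simpa using hi) (by simpa using hj) (mul_right_cancel₀ r0 e)]
  congr 1
  ext a
  simp only [mem_filter, mem_erase, mem_univ, and_true, mem_image, mem_range]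
  constructor
  · rintro ⟨-, ha⟩
    obtain ⟨i, hi, e'⟩ := hη.eq_pow_of_pow_eq_one (ξ := a / r b)
      (by rw [div_pow, ha, e, div_self (e ▸ pow_ne_zero _ r0)])
    exact ⟨i, hi, by rw [e', div_mul_cancel₀ _ r0]⟩
  · rintro ⟨i, -, rfl⟩
    exact ⟨mul_ne_zero (pow_ne_zero _ (hη.ne_zero hn)) r0, by
      rw [mul_pow, ← pow_mul, mul_comm i, pow_mul, hη.pow_eq_one, one_pow, one_mul, e]⟩

theorem orbit_gd {Ov : ValuationSubring ℂ → Prop} (hU : PartU ρ σ) (hε : Eps ρ σ ε) (hL : ELat ε L)
    {p n : ℕ} [hp : Fact p.Prime] {c : K} (hL' : ELat ε (L ⊔ Submodule.span ℤ {c}))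
    (pc : (p : K) * c ∈ L) (nc : c ∉ L) {η : ℤ} (es : ε * c - η * c ∈ L) (hn : n ≠ 0)
    (hη : IsPrimitiveRoot (η : ZMod p) n) (hc : (ε ^ n - 1) * c ∈ L) {y : K}
    (hy : (ε - 1) * y ∈ L) (hy' : y ∉ L ⊔ Submodule.span ℤ {c})
    (h : ∀ i : ℕ, Gd Ov (uu ρ σ (ε ^ n) L (y + i * c) / uu ρ σ (ε ^ n) L y)) :
    Gd Ov (uu ρ σ ε (L ⊔ Submodule.span ℤ {c}) y / uu ρ σ ε L y ^ p) := by
  classical
  obtain ⟨R, r, hR⟩ := orb_sum hn hη
  have card : p = 1 + R.card * n := by
    have := hR fun _ => 1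
    simp only [sum_const, card_univ, ZMod.card, card_range, nsmul_eq_mul,
      mul_one] at this
    exact_mod_cast this
  have one : ∀ (j : ℕ) (a : ZMod p),
      ε ^ j * (y + a.val * c) - (y + ((η : ZMod p) ^ j * a).val * c) ∈ L := fun j a => by
    induction j with
    | zero => simp
    | succ j ih =>
      set b := (η : ZMod p) ^ j * a with hb
      have k := (int_mem pc nc ((b.val : ℤ) * η - ((η : ZMod p) ^ (j + 1) * a).val)).2 (by
        push_cast; simp only [ZMod.natCast_val, ZMod.cast_id', id, hb]; ring)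
      convert L.add_mem ((hL.stab _).2 ih)
        (L.add_mem hy (L.add_mem (L.smul_mem (b.val : ℤ) es) k)) using 1
      simp only [zsmul_eq_mul]; push_cast; ring
  have := hU.lin ε hε (ι := Bool ⊕ R)
    (Sum.elim (fun b => cond b (L ⊔ Submodule.span ℤ {c}) L) fun _ => L)
    (Sum.elim (fun _ => y) fun b => y + (r b).val * c) (Sum.elim (fun _ => 1) fun _ => n)
    (Sum.elim (fun b => cond b 1 (-1)) fun _ => -1)
    (by rintro ((_ | _) | a) <;> assumption) (by rintro (_ | a) <;> simp [hn])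
    (by
      rintro ((_ | _) | a)
      · simpa using hy
      · simpa using Submodule.mem_sup_left hy
      · exact shp_add (hL.sharp_pow hy n) (shp_nat hc _))
    (by
      rintro ((_ | _) | a)
      · exact fun e => hy' (Submodule.mem_sup_left e)
      · exact hy'
      · exact fun e => hy' ((Submodule.add_mem_iff_left _ (line_mem c _)).1
          (Submodule.mem_sup_left e))) fun x => by
      have e : ∀ (j : ℕ) (a : ZMod p), x - ε ^ j * (y + a.val * c) ∈ L ↔
          x - y - ((η : ZMod p) ^ j * a).val * c ∈ L := fun j a => by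
        rw [← L.add_mem_iff_left (one j a)]
        congr! 1; ring
      have k := hR fun a => if x - y - a.val * c ∈ L then -1 else 0
      simp only [Fintype.sum_sum_type, Fintype.sum_bool, Sum.elim_inl, Sum.elim_inr, range_one,
        sum_singleton, pow_zero, one_mul, cond_true, cond_false, e]
      rw [sum_coe_sort R fun b => ∑ j ∈ range n,
        if x - y - ((η : ZMod p) ^ j * r b).val * c ∈ L then (-1 : ℤ) else 0]
      simp only [ZMod.val_zero, Nat.cast_zero, zero_mul, sub_zero] at k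
      rw [add_assoc, ← k]
      by_cases m : x - y ∈ L ⊔ Submodule.span ℤ {c}
      · obtain ⟨a, ha, hu⟩ := line_reps pc nc _ m
        rw [sum_eq_single a (fun b _ hb => if_neg fun e => hb (hu b e)) (by simp), if_pos m,
          if_pos ha]
        simp
      · rw [if_neg m, zero_add]
        exact sum_eq_zero fun a _ => if_neg fun e => m (by
          simpa using Submodule.add_mem _ (Submodule.mem_sup_left e) (line_mem c a.val))
  simp only [Fintype.prod_sum_type, Fintype.prod_bool, Sum.elim_inl, Sum.elim_inr, pow_one,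
    cond_true, cond_false, zpow_neg, zpow_one, prod_inv_distrib] at this
  rw [prod_coe_sort R fun b => uu ρ σ (ε ^ n) L (y + (r b).val * c)] at this
  have g := ((IsMu.gd (Ov := Ov) this).mul (Gd.prod R fun b _ => h (r b).val)).mul
    ((uu_pow hU hε hL hy hn).pow R.card).gd
  have n1 := hU.ne _ _ _ hε hL hy
  have n2 := hU.ne _ _ _ (eps_pow hε hn) (hL.pow n) (hL.sharp_pow hy n)
  have n3 : ∏ b ∈ R, uu ρ σ (ε ^ n) L (y + (r b).val * c) ≠ 0 := prod_ne_zero_iff.2 fun b _ =>
    hU.ne _ _ _ (eps_pow hε hn) (hL.pow n) (shp_add (hL.sharp_pow hy n) (shp_nat hc _))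
  rw [prod_div_distrib, prod_const] at g
  convert g using 1
  generalize ∏ b ∈ R, uu ρ σ (ε ^ n) L (y + (r b).val * c) = P at *
  generalize uu ρ σ (ε ^ n) L y = B at *
  generalize uu ρ σ ε L y = A at *
  generalize R.card = m at *
  rw [show A ^ p = A * (A ^ n) ^ m by rw [← pow_mul, ← pow_succ']; congr 1; rw [card]; ring,
    div_pow]
  field_simp

end Pool.Agent.CU.CV
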