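import Pool.Agent.Lib.MP_ca56d1_nt.CV.Line

set_option linter.unusedSectionVars false
set_option linter.style.haveILetI false

namespace Pool.Agent.RM

open Finset StarkC

/-- `z` is a root of unity. -/
def IsMu (z : ℂ) : Prop := ∃ n : ℕ, n ≠ 0 ∧ z ^ n = 1

theorem IsMu.one : IsMu 1 := ⟨1, one_ne_zero, one_pow _⟩

theorem IsMu.mul {z w : ℂ} (hz : IsMu z) (hw : IsMu w) : IsMu (z * w) := by
  obtain ⟨n, hn, e⟩ := hz
  obtain ⟨m, hm, e'⟩ := hw
  exact ⟨n * m, mul_ne_zero hn hm, by rw [mul_pow, pow_mul, e, mul_comm n, pow_mul, e']; simp⟩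

theorem IsMu.inv {z : ℂ} (hz : IsMu z) : IsMu z⁻¹ := by
  obtain ⟨n, hn, e⟩ := hz
  exact ⟨n, hn, by rw [inv_pow, e, inv_one]⟩

theorem IsMu.div {z w : ℂ} (hz : IsMu z) (hw : IsMu w) : IsMu (z / w) :=
  div_eq_mul_inv z w ▸ hz.mul hw.inv

theorem IsMu.pow {z : ℂ} (hz : IsMu z) (k : ℕ) : IsMu (z ^ k) := by
  obtain ⟨n, hn, e⟩ := hz
  exact ⟨n, hn, by rw [← pow_mul, mul_comm, pow_mul, e, one_pow]⟩

theorem IsMu.of_pow {z : ℂ} {k : ℕ} (hk : k ≠ 0) (hz : IsMu (z ^ k)) : IsMu z := by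
  obtain ⟨n, hn, e⟩ := hz
  exact ⟨k * n, mul_ne_zero hk hn, by rw [pow_mul, e]⟩

theorem IsMu.val {z : ℂ} (hz : IsMu z) (O : ValuationSubring ℂ) : O.valuation z = 1 := by
  obtain ⟨n, hn, e⟩ := hz
  exact val_root O hn e

theorem IsMu.val_eq {z w : ℂ} (h : IsMu (z / w)) (O : ValuationSubring ℂ) :
    O.valuation z = O.valuation w := by
  have := h.val O
  rw [map_div₀] at this
  exact eq_of_div_eq_one this

/-- `z` is congruent to a fixed root of unity at all valuation rings of a family. -/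
def Gd (Ov : ValuationSubring ℂ → Prop) (z : ℂ) : Prop :=
  ∃ ξ, IsMu ξ ∧ ∀ O, Ov O → O.valuation (z - ξ) < 1

variable {Ov : ValuationSubring ℂ → Prop}

theorem IsMu.gd {z : ℂ} (hz : IsMu z) : Gd Ov z := ⟨z, hz, fun O _ => by simp⟩

theorem val_of_cg {O : ValuationSubring ℂ} {z ξ : ℂ} (h : O.valuation ξ = 1)
    (h' : O.valuation (z - ξ) < 1) : O.valuation z = 1 := by
  rw [← h, ← sub_add_cancel z ξ]
  exact Valuation.map_add_eq_of_lt_right _ (h ▸ h')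

theorem Gd.mul {z w : ℂ} (hz : Gd Ov z) (hw : Gd Ov w) : Gd Ov (z * w) := by
  obtain ⟨a, ha, h⟩ := hz
  obtain ⟨b, hb, h'⟩ := hw
  refine ⟨a * b, ha.mul hb, fun O hO => ?_⟩
  rw [show z * w - a * b = z * (w - b) + (z - a) * b by ring]
  refine Valuation.map_add_lt _ ?_ ?_
  · rw [map_mul, val_of_cg (ha.val O) (h O hO), one_mul]; exact h' O hO
  · rw [map_mul, hb.val, mul_one]; exact h O hO

theorem Gd.inv {z : ℂ} (hz : Gd Ov z) : Gd Ov z⁻¹ := by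
  obtain ⟨a, ha, h⟩ := hz
  refine ⟨a⁻¹, ha.inv, fun O hO => ?_⟩
  have h1 := val_of_cg (ha.val O) (h O hO)
  have z0 : z ≠ 0 := fun e => by simp [e] at h1
  have a0 : a ≠ 0 := fun e => by simpa [e] using ha.val O
  rw [inv_sub_inv z0 a0, map_div₀, map_mul, h1, ha.val, mul_one, div_one, Valuation.map_sub_swap]
  exact h O hO

theorem Gd.div {z w : ℂ} (hz : Gd Ov z) (hw : Gd Ov w) : Gd Ov (z / w) :=
  div_eq_mul_inv z w ▸ hz.mul hw.inv

theorem Gd.prod {ι : Type*} (s : Finset ι) {f : ι → ℂ} (h : ∀ i ∈ s, Gd Ov (f i)) :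
    Gd Ov (∏ i ∈ s, f i) :=
  prod_induction f (Gd Ov) (fun _ _ => Gd.mul) IsMu.one.gd h

theorem Gd.of_pow {p : ℕ} (hp : p.Prime) (hO : ∀ O, Ov O → O.valuation p < 1) {z : ℂ}
    (hz : Gd Ov (z ^ p)) : Gd Ov z := by
  obtain ⟨a, ha, h⟩ := hz
  obtain ⟨b, rfl⟩ := IsAlgClosed.exists_pow_nat_eq a hp.pos
  have hb := ha.of_pow hp.ne_zero
  refine ⟨b, hb, fun O k => ?_⟩
  have h1 := val_of_cg (ha.val O) (h O k)
  rw [map_pow, pow_eq_one_iff_left hp.ne_zero] at h1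
  obtain ⟨r, hr, e⟩ := frob_sub O hp h1.le (hb.val O).le
  refine (pow_lt_one_iff hp.ne_zero).1 ?_
  rw [← map_pow, e]
  refine Valuation.map_sub_lt _ (h O k) ?_
  rw [map_mul, map_mul]
  exact (mul_le_of_le_one_right' hr).trans_lt ((mul_le_of_le_one_right'
    (Valuation.map_sub_le _ h1.le (hb.val O).le)).trans_lt (hO O k))

theorem gd_tel {r : ℕ → ℂ} (h0 : ∀ i, r i ≠ 0) (h : ∀ i, Gd Ov (r (i + 1) / r i)) (i : ℕ) :
    Gd Ov (r i / r 0) := by
  induction i with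
  | zero => rw [div_self (h0 0)]; exact IsMu.one.gd
  | succ i ih => rw [← div_mul_div_cancel₀ (h0 i)]; exact (h i).mul ih

theorem gd_step {p : ℕ} (hp : p.Prime) (hO : ∀ O, Ov O → O.valuation p < 1) {w : ℕ → ℂ}
    (h0 : ∀ i, w i ≠ 0) (hw : IsMu (w p / w 0))
    (h : ∀ i, Gd Ov (w (i + 2) / w (i + 1) / (w (i + 1) / w i))) (i : ℕ) :
    Gd Ov (w (i + 1) / w i) := by
  have r0 : ∀ i, w (i + 1) / w i ≠ 0 := fun i => div_ne_zero (h0 _) (h0 _)
  have h1 := gd_tel (r := fun i => w (i + 1) / w i) r0 h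
  have e : ∀ n, ∏ i ∈ range n, w (i + 1) / w i = w n / w 0 := fun n => by
    induction n with
    | zero => simp [h0]
    | succ n ih => rw [prod_range_succ, ih, mul_comm, div_mul_div_cancel₀ (h0 n)]
  have h2 : Gd Ov (w 1 / w 0) := by
    refine Gd.of_pow hp hO ?_
    have := (hw.gd (Ov := Ov)).div (Gd.prod (range p) fun i _ => h1 i)
    rwa [prod_div_distrib, e, prod_const, card_range,
      div_div_cancel₀ (div_ne_zero (h0 _) (h0 _))] at this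
  have := (h1 i).mul h2
  rwa [div_mul_cancel₀ _ (r0 0)] at this

end Pool.Agent.RM
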