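import Pool.Agent.Lib.MP_ca56d1_nt.C.Glue
import Pool.Agent.Lib.MP_ca56d1_nt.C.Conv

set_option linter.unusedSectionVars false
set_option linter.style.haveILetI false

namespace Pool.Agent.RM

open Finset StarkC

variable {K : Type*} [Field K] [CharZero K] {ε : K} {L : Submodule ℤ K}

theorem GG_fin {ε' : K} (hL : ELat ε' L) (hε : ε ≠ 1) : Finite (GG ε L) := by
  have h0 : ε - 1 ≠ 0 := sub_ne_zero.2 hε
  have e : sharp ε L = L.map (LinearMap.mulLeft ℤ (ε - 1)⁻¹) := by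
    ext x
    rw [mem_sharp, Submodule.mem_map]
    exact ⟨fun h => ⟨_, h, by simp [h0]⟩, by rintro ⟨y, hy, rfl⟩; simpa [h0] using hy⟩
  haveI : Module.Finite ℤ (sharp ε L) := Module.Finite.iff_fg.2 (e ▸ hL.fg.map _)
  refine Module.finite_of_fg_torsion _ fun a => ?_
  obtain ⟨x, hx, rfl⟩ := cl_surj a
  obtain ⟨n, hn, h⟩ := hL.full x
  refine ⟨⟨n, mem_nonZeroDivisors_of_ne_zero (by exact_mod_cast hn)⟩, ?_⟩
  change (n : ℤ) • cl x hx = 0
  rw [cl_zsmul, cl_eq_zero]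
  simpa using h

theorem lf_out {α : Type*} (φ : K → α) (a : GG ε L) :
    ∃ x hx, a = cl x hx ∧ lf φ a = φ x :=
  ⟨_, (Quotient.out a : sharp ε L).2, (Quotient.out_eq a).symm, rfl⟩

theorem exists_reps {ε' : K} (hL : ELat ε' L) (hε : ε ≠ 1) : ∃ s, Reps ε L s := by
  classical
  haveI := GG_fin hL hε
  haveI := Fintype.ofFinite (GG ε L)
  refine ⟨univ.image (lf id : GG ε L → K), fun g hg => ?_, fun x hx => ?_⟩
  · obtain ⟨a, -, rfl⟩ := mem_image.1 hg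
    obtain ⟨y, hy, -, e⟩ := lf_out id a
    rwa [e]
  · obtain ⟨y, hy, e1, e⟩ := lf_out id (cl x hx)
    refine ⟨_, ⟨mem_image_of_mem _ (mem_univ (cl x hx)), by rw [e]; exact cl_eq.1 e1⟩, ?_⟩
    rintro _ ⟨hg, h⟩
    obtain ⟨a, -, rfl⟩ := mem_image.1 hg
    obtain ⟨z, hz, rfl, e2⟩ := lf_out id a
    rw [e2] at h
    rw [(cl_eq (hx := hx) (hy := hz)).2 h]

theorem sum_reps [Fintype (GG ε L)] {s : Finset K} (hs : Reps ε L s) {φ : K → ℂ}
    (h : ∀ x y, (ε - 1) * x ∈ L → (ε - 1) * y ∈ L → x - y ∈ L → φ x = φ y) :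
    ∑ a : GG ε L, lf φ a = ∑ g ∈ s, φ g := by
  refine (sum_bij (fun g hg => cl g (hs.1 g hg)) (fun _ _ => mem_univ _) (fun a ha b hb e => ?_)
    (fun a _ => ?_) fun g hg => (lf_cl h _).symm).symm
  · exact (hs.2 a (hs.1 a ha)).unique ⟨ha, by simp⟩ ⟨hb, cl_eq.1 e⟩
  · obtain ⟨x, hx, rfl⟩ := cl_surj a
    obtain ⟨g, ⟨hg, e⟩, -⟩ := hs.2 x hx
    exact ⟨g, hg, (cl_eq.2 e).symm⟩

theorem card_val {A : Type*} [AddCommGroup A] [Fintype A] (O : ValuationSubring ℂ) {p a n : ℕ}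
    (hp : p.Prime) (hO : O.valuation p < 1) {g : A} (hg : p ^ a • g = 0) (hn : ¬ p ∣ n)
    (h : ∀ x, n • x ∈ AddSubgroup.zmultiples g) :
    O.valuation p ^ a ≤ O.valuation (Fintype.card A) := by
  haveI := Fact.mk hp
  have h1 : ¬ p ∣ Nat.card (A ⧸ AddSubgroup.zmultiples g) := fun hd => by
    obtain ⟨x, hx⟩ := exists_prime_addOrderOf_dvd_card' p hd
    obtain ⟨y, rfl⟩ := QuotientAddGroup.mk_surjective x
    refine hn (hx ▸ addOrderOf_dvd_of_nsmul_eq_zero ?_)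
    rw [← QuotientAddGroup.mk_nsmul, QuotientAddGroup.eq_zero_iff]
    exact h y
  obtain ⟨m, hm⟩ := addOrderOf_dvd_of_nsmul_eq_zero hg
  rw [← Nat.card_eq_fintype_card, AddSubgroup.card_eq_card_quotient_mul_card_addSubgroup
    (AddSubgroup.zmultiples g), Nat.cast_mul, map_mul, val_coprime O hp hO h1, one_mul,
    Nat.card_zmultiples, ← map_pow, ← Nat.cast_pow, hm, Nat.cast_mul, map_mul]
  exact mul_le_of_le_one_right' (val_nat O m)

/-- The `p`-part of `(ε - 1)⁻¹ L / L` is cyclic of order dividing `p ^ (a + 1)` and `c` lies in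
its bottom layer. -/
structure Cyc (p : ℕ) (ε : K) (L : Submodule ℤ K) (c : K) (a : ℕ) : Prop where
  pc : (p : K) * c ∈ L
  nc : c ∉ L
  ex : ∃ (g : K) (n : ℕ), (ε - 1) * g ∈ L ∧ c - p ^ a * g ∈ L ∧ ¬ p ∣ n ∧
    ∀ x, (ε - 1) * x ∈ L → ∃ i : ℤ, n * x - i * g ∈ L

theorem Cyc.sh {p a : ℕ} {c : K} (hc : Cyc p ε L c a) (hL : ELat ε L) : (ε - 1) * c ∈ L := by
  obtain ⟨g, n, h1, h2, -⟩ := hc.ex
  have := shp_add (hL.sharp_of_mem h2) (shp_nat h1 (p ^ a))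
  simpa using this

theorem line_deg (O : ValuationSubring ℂ) {p a : ℕ} [hp : Fact p.Prime] (hO : O.valuation p < 1)
    (hL : ELat ε L) (hε : ε ≠ 1) {c : K} (hc : Cyc p ε L c a) {s : Finset K} (hs : Reps ε L s)
    {h : K → ℂ} (per : ∀ x y, (ε - 1) * x ∈ L → (ε - 1) * y ∈ L → x - y ∈ L → h x = h y)
    {t : ℂ} (ht : t ≠ 0) (hle : ∀ x, (ε - 1) * x ∈ L → O.valuation (h x) ≤ O.valuation t)
    (hZ : ∀ Z, (ε - 1) * Z ∈ L → O.valuation (∑ g ∈ s, h g * h (Z - g)) ≤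
      O.valuation p ^ (a + 1) * O.valuation t ^ 2) :
    (StarkC.dl (IsLocalRing.ResidueField O) (1 : ZMod p) ^ ((p - 1) / 2 + 1))
      (fun i => red O (h (i.val * c) / t)) = 0 := by
  haveI := GG_fin hL hε
  haveI := Fintype.ofFinite (GG ε L)
  have hc1 := hc.sh hL
  obtain ⟨g, n, h1, h2, h3, h4⟩ := hc.ex
  have t0 : 0 < O.valuation t := zero_lt_iff.2 (by simpa using ht)
  have e1 : p ^ a • cl g h1 = cl c hc1 := by
    rw [cl_nsmul, eq_comm, cl_eq]; simpa using h2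
  have e0 : p • cl c hc1 = 0 := by rw [cl_nsmul, cl_eq_zero]; exact hc.pc
  have e2 : p ^ (a + 1) • cl g h1 = 0 := by rw [pow_succ', mul_smul, e1, e0]
  have key := conv_deg O hp.out hO (card_val O hp.out hO e2 h3 fun x => ?_) _ e2
    (fun x => lf h x / t) (fun x => ?_) fun Z => ?_
  · have := dd_comp (k := IsLocalRing.ResidueField O) (zhom p _ e0) 0 1 1 0 ((p - 1) / 2 + 1)
      (fun x => red O (lf h x / t))
    have z1 : zhom p _ e0 1 = p ^ a • cl g h1 := by simpa [e1] using zhom_int p _ e0 1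
    simp only [dd, pow_zero, one_mul, z1, key] at this
    simp only [zero_add, zhom_val, cl_nsmul, lf_cl per] at this
    exact this
  · obtain ⟨x, hx, rfl⟩ := cl_surj x
    obtain ⟨i, hi⟩ := h4 x hx
    exact ⟨i, by simp only; rw [cl_zsmul, cl_nsmul, eq_comm, cl_eq]; exact hi⟩
  · obtain ⟨x, hx, rfl⟩ := cl_surj x
    rw [lf_cl per, map_div₀, div_le_one₀ t0]
    exact hle x hx
  · obtain ⟨Z, hZ', rfl⟩ := cl_surj Z
    have per' : ∀ x y, (ε - 1) * x ∈ L → (ε - 1) * y ∈ L → x - y ∈ L →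
        h x * h (Z - x) = h y * h (Z - y) := fun x y hx hy hxy => by
      rw [per x y hx hy hxy, per (Z - x) (Z - y)
        (sub_eq_add_neg Z x ▸ shp_add hZ' (shp_neg hx)) (sub_eq_add_neg Z y ▸ shp_add hZ' (shp_neg hy))
        (by convert L.neg_mem hxy using 1; ring)]
    have e : ∑ x, lf h x / t * (lf h (cl Z hZ' - x) / t) = (∑ g ∈ s, h g * h (Z - g)) / t ^ 2 := by
      rw [← sum_reps hs per', sum_div]
      refine sum_congr rfl fun x _ => ?_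
      obtain ⟨x, hx, rfl⟩ := cl_surj x
      rw [sub_eq_add_neg, cl_neg, cl_add, lf_cl per, lf_cl per, lf_cl per', ← sub_eq_add_neg]
      ring
    rw [e, map_div₀, map_pow, div_le_iff₀ (pow_pos t0 2)]
    exact hZ Z hZ'

end Pool.Agent.RM
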