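import Pool.Agent.Lib.MP_ca56d1_nt.CV.Line
import Pool.Agent.Lib.MP_ca56d1_nt.CU.StC

/-! Number field inputs of the valuation part over a complex cubic field. -/

namespace Pool.Agent.CU

open NumberField IsDedekindDomain Pool.Agent.Stark Pool.Agent.Stark.AR Pool.Agent.RM
  Pool.Agent.StarkD

variable {K : Type} [Field K] [NumberField K]

/-- Valuation rings over a prime. -/
structure OvSt (σ : K →+* ℂ) : Prop where
  le : ∀ q O, Over σ q O → ∀ x ∈ pw (q.valuation K) 0, O.valuation (σ x) ≤ 1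
  lt : ∀ q O, Over σ q O → ∀ x ∈ pw (q.valuation K) 1, O.valuation (σ x) < 1
  one : ∀ q O, Over σ q O → ∀ x : K, x ≠ 0 → og q x = 0 → O.valuation (σ x) = 1
  alg : ∀ (q : Pr K) (z : ℂ), (∀ O, Over σ q O → O.valuation z ≤ 1) → IsAlgebraic ℚ z

/-- The cyclic `p`-part of the group of fixed points. -/
def CycSt (K : Type) [Field K] [NumberField K] : Prop :=
  ∀ (e : K) (q : Pr K) (p : ℕ) (D : Dv K), p.Prime → Ideal.absNorm q.asIdeal = p →
    og q (p : K) = 1 → IsU e → e ≠ 1 → e - 1 ∈ pw (q.valuation K) 1 →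
    (∀ q' : Pr K, q' ≠ q → (p : 𝓞 K) ∈ q'.asIdeal → e - 1 ∉ pw (q'.valuation K) 1) →
    ∃ (c : K) (a : ℕ), Cyc p e (fi D) c a ∧ og q (e - 1) = a + 1 ∧ og q c = -D q - 1 ∧
      fi D ⊔ Submodule.span ℤ {c} = fi (D + pd q)

/-- Finitely many fractional ideals up to positive homothety. -/
def ClsSt (ρ : K →+* ℝ) : Prop :=
  ∃ T : Finset (Dv K), ∀ D, ∃ D' ∈ T, ∃ a : K, 0 < ρ a ∧ ∀ x, a * x ∈ fi D' ↔ x ∈ fi D

end Pool.Agent.CU
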