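import Pool.Agent.Lib.MP_ca56d1_nt.CV.Dist

set_option linter.unusedSectionVars false
set_option linter.style.haveILetI false

namespace Pool.Agent.CU.CV

open Finset StarkC RM

variable {K : Type} [Field K] [CharZero K] {ρ : K →+* ℝ} {σ : K →+* ℂ} {ε E : K}
  {L L' : Submodule ℤ K}

theorem exists_half (hL : ELat E L) : ∃ g, 2 * g ∈ L ∧ g ∉ L := by
  by_contra hc
  push Not at hc
  obtain ⟨r, h1, h2⟩ := Submodule.exists_sub_one_mem_and_smul_eq_zero_of_fg_of_le_smul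
    (Ideal.span {(2 : ℤ)}) L hL.fg fun x hx => by
      have := Submodule.smul_mem_smul (Ideal.mem_span_singleton_self (2 : ℤ))
        (hc (x / 2) (by rwa [mul_div_cancel₀ _ two_ne_zero]))
      rwa [zsmul_eq_mul, Int.cast_ofNat, mul_div_cancel₀ _ two_ne_zero] at this
  obtain ⟨n, hn, h⟩ := hL.full 1
  have := h2 _ h
  rw [Ideal.mem_span_singleton] at h1
  simp only [mul_one, zsmul_eq_mul, mul_eq_zero, Int.cast_eq_zero, Nat.cast_eq_zero, hn,
    or_false] at this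
  omega

theorem elat_half (hL : ELat E L) : ELat E (sharp 3 L) := by
  have e : sharp 3 L = L.map (LinearMap.mulLeft ℤ (2 : K)⁻¹) := by
    ext x
    rw [mem_sharp, Submodule.mem_map, show (3 : K) - 1 = 2 by norm_num]
    exact ⟨fun h => ⟨_, h, by simp⟩, by rintro ⟨y, hy, rfl⟩; simpa using hy⟩
  refine ⟨e ▸ hL.fg.map _, fun y => ?_, fun y => ?_⟩
  · obtain ⟨n, hn, h⟩ := hL.full ((3 - 1) * y)
    exact ⟨n, hn, by rwa [mem_sharp, mul_left_comm]⟩
  · rw [mem_sharp, mem_sharp, mul_left_comm, hL.stab]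

theorem unit_core (hU : PartU ρ σ) (hP : PartO2 ρ σ) {p : ℕ} [hp : Fact p.Prime] (h2 : p ≠ 2)
    (hE : Eps ρ σ E) (O : ValuationSubring ℂ) (hO : O.valuation p < 1)
    (v1 : O.valuation (σ E) = 1) (v2 : O.valuation (σ E + 1) = 1) (F : Set (Submodule ℤ K))
    (hF : ∀ L ∈ F, ELat E L ∧ (∀ g, 2 * g ∈ L → (E - 1) * g ∈ L) ∧ ∃ c a, Cyc p E L c a ∧
      O.valuation (σ E - 1) ≤ O.valuation p ^ (a + 1) ∧ L ⊔ Submodule.span ℤ {c} ∈ F)
    (hfin : {z | ∃ L ∈ F, ∃ y, (E ^ 2 - 1) * y ∈ L ∧ z = av O (uu ρ σ (E ^ 2) L y)}.Finite)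
    (hL : L ∈ F) {y : K} (hy : (E ^ 2 - 1) * y ∈ L) : O.valuation (uu ρ σ (E ^ 2) L y) = 1 := by
  classical
  haveI := charP_res O hp.out hO
  have hE2 := eps_pow hE two_ne_zero
  have u0 : ∀ {L y}, L ∈ F → (E ^ 2 - 1) * y ∈ L → uu ρ σ (E ^ 2) L y ≠ 0 := fun hL hy =>
    hU.ne _ _ _ hE2 ((hF _ hL).1.pow 2) hy
  have up : ∀ {L x}, L ∈ F → (E - 1) * x ∈ L → (E ^ 2 - 1) * x ∈ L := fun hL hx =>
    (hF _ hL).1.sharp_pow hx 2
  have sb : ∀ {L : Submodule ℤ K} {e x y : K}, (e - 1) * x ∈ L → (e - 1) * y ∈ L →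
      (e - 1) * (x - y) ∈ L := fun hx hy => by rw [mul_sub]; exact Submodule.sub_mem _ hx hy
  have hg2 : ∀ {L g}, L ∈ F → 2 * g ∈ L → (E ^ 2 - 1) * g ∈ L := fun hL hg =>
    up hL ((hF _ hL).2.1 _ hg)
  have sE : ∀ {L y}, L ∈ F → (E ^ 2 - 1) * y ∈ L → (E ^ 2 - 1) * (E * y) ∈ L := fun hL hy => by
    rwa [mul_left_comm, (hF _ hL).1.stab]
  obtain ⟨n, hn⟩ : ∃ n : Submodule ℤ K → K → _, ∀ L y, n L y = av O (uu ρ σ (E ^ 2) L y) :=
    ⟨_, fun _ _ => rfl⟩
  simp only [← hn] at hfin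
  have nper : ∀ {L x y}, x - y ∈ L → n L x = n L y := fun h => by rw [hn, hn, hU.per _ _ _ _ h]
  have nE : ∀ {L x y}, L ∈ F → (E ^ 2 - 1) * y ∈ L → x - E * y ∈ L → n L x = n L y := by
    intro L x y hL hy h
    rw [nper h, hn, hn]
    exact av_mu O (u0 hL (sE hL hy)) (u0 hL hy) (hU.hom _ L L y E hE2 ((hF _ hL).1.pow 2) hy
      (one_pos.trans hE.one_lt) (hF _ hL).1.stab)
  obtain ⟨N, hN, hmax⟩ := Set.exists_max_image
    {d | ∃ L ∈ F, ∃ y g, (E ^ 2 - 1) * y ∈ L ∧ 2 * g ∈ L ∧ d = n L y - n L (y - g)} id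
    ((hfin.image2 (· - ·) hfin).subset (by
      rintro _ ⟨L, hL, y, g, hy, hg, rfl⟩
      exact ⟨_, ⟨L, hL, y, hy, rfl⟩, _, ⟨L, hL, _, sb hy (hg2 hL hg), rfl⟩, rfl⟩))
    ⟨_, L, hL, y, 0, hy, by simp, rfl⟩
  have le : ∀ {L y g}, L ∈ F → (E ^ 2 - 1) * y ∈ L → 2 * g ∈ L → n L y - n L (y - g) ≤ N :=
    fun hL hy hg => hmax _ ⟨_, hL, _, _, hy, hg, rfl⟩
  have N0 : N ≤ 0 := by
    by_contra hc
    rw [not_le] at hc
    obtain ⟨L, hL, y, g, hy, hg, e⟩ := hN
    obtain ⟨hLE, hh, c, a, hc1, hv, hL'⟩ := hF L hL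
    have c1 := hc1.sh hLE
    have g1 := hh g hg
    have cnt : ∀ y, (E ^ 2 - 1) * y ∈ L →
        (∃ i : ZMod p, n L (i.val * c + y) - n L (i.val * c + y - g) = N) →
        p ≤ (p - 1) / 2 + (univ.filter fun i : ZMod p =>
          n L (i.val * c + y) - n L (i.val * c + y - g) = N).card := by
      rintro y hy ⟨i₀, h0⟩
      have z1 : ∀ {z}, (E ^ 2 - 1) * z ∈ L → (E ^ 2 - 1) * (z + y) ∈ L := fun h => shp_add h hy
      have z2 : ∀ {z}, (E ^ 2 - 1) * z ∈ L → (E ^ 2 - 1) * (z + E * y) ∈ L :=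
        fun h => shp_add h (sE hL hy)
      have z3 : ∀ {z}, (E ^ 2 - 1) * z ∈ L → (E ^ 2 - 1) * (z + (y - g)) ∈ L :=
        fun h => shp_add h (sb hy (up hL g1))
      have z4 : ∀ {z}, (E ^ 2 - 1) * z ∈ L → (E ^ 2 - 1) * (z + (E * y + g)) ∈ L :=
        fun h => shp_add h (shp_add (sE hL hy) (up hL g1))
      have gn : g ∉ L := fun k => hc.ne' (by
        rw [← h0, nper (x := i₀.val * c + y) (y := i₀.val * c + y - g) (by simpa using k), sub_self])
      have gy : y - (E * y + g) ∉ L := fun k => hc.ne' (by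
        rw [← h0, nE (x := i₀.val * c + y - g) hL (z1 (up hL (shp_nat c1 i₀.val))) (by
          convert L.sub_mem k (shp_nat c1 i₀.val) using 1; ring), sub_self])
      have st : ∀ {x x'}, (E ^ 2 - 1) * x ∈ L → E * x - x' ∈ L → St2 E L x x' := by
        intro x x' hx h
        by_cases k : (E - 1) * x ∈ L
        · refine Or.inl ⟨k, ?_⟩
          convert L.sub_mem ((hLE.stab _).2 k) (hLE.sharp_of_mem h) using 1; ring
        · refine Or.inr ⟨h, ?_, fun k' => k ?_⟩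
          · convert L.sub_mem hx ((hLE.stab _).2 h) using 1; ring
          · convert L.sub_mem h k' using 1; ring
      have reg : ∃ i : ℕ, (i : K) * c + y ∉ L ∧ (i : K) * c + (y - g) ∉ L := by
        by_contra k
        have k' : ∀ i : ℕ, (i : K) * c + y ∈ L ∨ (i : K) * c + (y - g) ∈ L := fun i => by
          by_contra k'; exact k ⟨i, not_or.1 k'⟩
        have d1 : ∀ {i : ℕ} {w}, (i : K) * c + w ∈ L → ((i + 1 : ℕ) : K) * c + w ∉ L :=
          fun a b => hc1.nc (by convert L.sub_mem b a using 1; push_cast; ring)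
        have d2 : ∀ {w}, ((0 : ℕ) : K) * c + w ∈ L → ((2 : ℕ) : K) * c + w ∉ L := fun a b => by
          have := dvd_of_mem hp.out hc1.pc hc1.nc (k := 2) (by
            convert L.sub_mem b a using 1; push_cast; ring)
          exact h2 ((Nat.prime_dvd_prime_iff_eq hp.out Nat.prime_two).1 (by exact_mod_cast this))
        rcases k' 0 with a | a <;> rcases k' 1 with b | b <;> rcases k' 2 with d | d
        exacts [d1 a b, d1 a b, d2 a d, d1 b d, d1 b d, d2 a d, d1 a b, d1 a b]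
      obtain ⟨i, r1, r2⟩ := reg
      obtain ⟨h, hper, h1, b1, -⟩ := hP E L hE hLE y (E * y) (y - g) (E * y + g)
        (st hy (by simp)) (st (sb hy (up hL g1)) (by
          convert L.neg_mem (L.add_mem g1 hg) using 1; ring))
        (by convert L.zero_mem using 1; ring) (by simpa using gn) gy
        (fun k => gy (by convert L.neg_mem k using 1; ring)) (by simpa using gn)
        ⟨i * c, shp_nat c1 i, r1, fun k => r1 ((hLE.stab _).1 (by
          convert L.add_mem k (shp_nat c1 i) using 1; ring)), r2, fun k => r2 ((hLE.stab _).1 (by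
          convert L.sub_mem (L.add_mem k (shp_nat c1 i)) (L.add_mem g1 hg) using 1; ring))⟩
      obtain ⟨s, hs⟩ := exists_reps hLE (ne_one hE)
      have m0 : ∀ {z}, (E ^ 2 - 1) * z ∈ L → mono ρ σ E L y (E * y) (y - g) (E * y + g) z ≠ 0 :=
        fun h => div_ne_zero (mul_ne_zero (u0 hL (z1 h)) (u0 hL (z2 h)))
          (mul_ne_zero (u0 hL (z3 h)) (u0 hL (z4 h)))
      have mv : ∀ {z}, (E ^ 2 - 1) * z ∈ L → av O (mono ρ σ E L y (E * y) (y - g) (E * y + g) z) =
          (n L (z + y) - n L (z + y - g)) + (n L (z + E * y) - n L (z + E * y - -g)) := by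
        intro z h
        rw [mono, av_div (mul_ne_zero (u0 hL (z1 h)) (u0 hL (z2 h)))
          (mul_ne_zero (u0 hL (z3 h)) (u0 hL (z4 h))), av_mul (u0 hL (z1 h)) (u0 hL (z2 h)),
          av_mul (u0 hL (z3 h)) (u0 hL (z4 h)), ← hn, ← hn, ← hn, ← hn, sub_neg_eq_add,
          add_sub_assoc z, add_assoc z]
        abel
      have hv' : ∀ x, (E - 1) * x ∈ L → h x ≠ 0 ∧ av O (h x) = n L (x + y) - n L (x + y - g) := by
        intro x hx
        obtain ⟨j, k, -⟩ := h1 x hx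
        have k1 := IsMu.val_eq k O
        rw [map_mul, map_zpow₀, v1, one_zpow, one_mul] at k1
        have k0 : h x ≠ 0 := fun e => m0 (up hL hx) (by simpa [e] using k1.symm)
        rw [← av_eq (pow_ne_zero 2 k0) (m0 (up hL hx)), sq, av_mul k0 k0, mv (up hL hx),
          nE (x := x + E * y) hL (z1 (up hL hx)) (by convert L.neg_mem hx using 1; ring),
          nE (x := x + E * y - -g) hL (sb (z1 (up hL hx)) (up hL g1)) (by
            convert L.sub_mem (L.add_mem g1 hg) hx using 1; ring), ← two_nsmul, ← two_nsmul] at k1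
        exact ⟨k0, nsmul_right_injective two_ne_zero k1⟩
      obtain ⟨t0, ht⟩ := hv' _ (shp_nat c1 i₀.val)
      rw [h0] at ht
      generalize h (i₀.val * c) = t at t0 ht
      have hle : ∀ x, (E - 1) * x ∈ L → O.valuation (h x) ≤ O.valuation t := fun x hx => by
        rw [← av_le (hv' x hx).1 t0, (hv' x hx).2, ht]
        exact le hL (z1 (up hL hx)) hg
      have d1 := line_deg O hO hLE (ne_one hE) hc1 hs (fun x y _ _ e => hper x y e) t0 hle
        fun Z hZ => (b1 O t s hs v1 v2 (fun z hz => by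
          rw [← map_pow, ← av_le (m0 hz) (pow_ne_zero 2 t0), mv hz, sq, av_mul t0 t0, ht]
          exact add_le_add (le hL (z1 hz) hg) (le hL (z2 hz) (by simpa using hg))) Z hZ).trans
          (mul_le_mul_left hv _)
      have nz : ∀ i : ZMod p, red O (h (i.val * c) / t) ≠ 0 ↔
          n L (i.val * c + y) - n L (i.val * c + y - g) = N := fun i => by
        have t1 : 0 < O.valuation t := zero_lt_iff.2 (by simpa using t0)
        have k := hv' _ (shp_nat c1 i.val)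
        have k' := hle _ (shp_nat c1 i.val)
        rw [Ne, red_eq_zero (by rw [map_div₀]; exact (div_le_one₀ t1).2 k'), ← k.2, ← ht,
          av_eq k.1 t0, map_div₀, div_lt_one₀ t1]
        exact ⟨fun h => le_antisymm k' (not_lt.1 h), fun h => not_lt.2 h.ge⟩
      have := card_supp (AddMonoidHom.id (ZMod p)) 0 _ ((p - 1) / 2)
        (by have := hp.out.two_le; omega) d1 i₀ (by simpa using (nz i₀).2 h0)
      simpa only [AddMonoidHom.id_apply, zero_add, nz] using this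
    have sw : ∀ x, n L (x + (y - g)) - n L (x + (y - g) - g) = -(n L (x + y) - n L (x + y - g)) :=
      fun x => by
        rw [nper (x := x + (y - g) - g) (y := x + y) (by convert L.neg_mem hg using 1; ring),
          neg_sub, add_sub_assoc x]
    have k := line_lt h2 (fun i : ZMod p => n L (i.val * c + y) - n L (i.val * c + y - g)) hc
      (fun i => by
        rw [neg_le, ← sw]
        exact le hL (shp_add (up hL (shp_nat c1 _)) (sb hy (up hL g1))) hg)
      (cnt y hy ⟨0, by simpa using e.symm⟩) fun ⟨i, hi⟩ => by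
        have := cnt (y - g) (sb hy (up hL g1)) ⟨i, by rw [sw, hi, neg_neg]⟩
        simpa only [sw, neg_eq_iff_eq_neg] using this
    have ds : ∀ {y}, (E ^ 2 - 1) * y ∈ L →
        n (L ⊔ Submodule.span ℤ {c}) y = ∑ i : ZMod p, n L (y + i.val * c) := fun hy => by
      simp only [hn]
      exact dist_val hU hE2 (hLE.pow 2) ((hF _ hL').1.pow 2) le_sup_left _
        (fun i => line_mem c _) (fun i => up hL (shp_nat c1 _)) (line_reps hc1.pc hc1.nc) O hy
    have := le hL' (Submodule.mem_sup_left hy) (Submodule.mem_sup_left hg)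
    rw [ds hy, ds (sb hy (up hL g1)), ← sum_sub_distrib] at this
    refine absurd this (not_le.2 (k.trans_eq (sum_congr rfl fun i _ => ?_)))
    congr 2 <;> ring
  obtain ⟨hLE, hh, -⟩ := hF L hL
  obtain ⟨s, hs⟩ := exists_reps (ε := 3) hLE (by norm_num)
  have e3 : (3 : K) - 1 = 2 := by norm_num
  have s2 : ∀ g ∈ s, 2 * g ∈ L := fun g hg => e3 ▸ hs.1 g hg
  have two : ∀ y, (E ^ 2 - 1) * y ∈ L → n L (2 * y) = s.card • n L y := fun y hy => by
    have hy2 : (E ^ 2 - 1) * (2 * y) ∈ L := by simpa using shp_nat hy 2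
    have hle : L ≤ sharp 3 L := fun x hx => by
      rw [mem_sharp, e3, two_mul]; exact L.add_mem hx hx
    have k1 := dist_val hU hE2 (hLE.pow 2) ((elat_half hLE).pow 2) hle (A := s) (fun g => g.1)
      (fun g => hs.1 _ g.2) (fun g => hg2 hL (s2 _ g.2)) (fun x hx => by
        obtain ⟨g, ⟨h1, h2⟩, h3⟩ := hs.2 x hx
        exact ⟨⟨g, h1⟩, h2, fun b hb => Subtype.ext (h3 _ ⟨b.2, hb⟩)⟩) O hy
    rw [hn, av_mu O (u0 hL hy2) (hU.ne _ _ _ hE2 ((elat_half hLE).pow 2) (hle hy))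
      (hU.hom _ _ L y 2 hE2 ((elat_half hLE).pow 2) (hle hy) (by simp [map_ofNat])
        fun x => by rw [mem_sharp, e3]), k1, ← Fintype.card_coe, ← card_univ, ← sum_const]
    refine sum_congr rfl fun g _ => ?_
    have a := (le hL hy (g := -g) (by simpa using s2 _ g.2)).trans N0
    have b := (le hL (shp_add hy (hg2 hL (s2 _ g.2))) (s2 _ g.2)).trans N0
    rw [sub_neg_eq_add, sub_nonpos] at a
    rw [add_sub_cancel_right, sub_nonpos] at b
    rw [← hn]
    exact le_antisymm b a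
  have c2 : 1 < s.card := by
    obtain ⟨g, h1, h2⟩ := exists_half hLE
    obtain ⟨a, ⟨a1, a2⟩, -⟩ := hs.2 0 (by simp)
    obtain ⟨b, ⟨b1, b2⟩, -⟩ := hs.2 g (e3 ▸ h1)
    exact one_lt_card.2 ⟨a, a1, b, b1, fun e => h2 (by
      convert L.sub_mem b2 (e ▸ a2) using 1; ring)⟩
  have fin : {d | ∃ y, (E ^ 2 - 1) * y ∈ L ∧ d = n L y}.Finite :=
    hfin.subset fun _ ⟨y, hy, e⟩ => ⟨L, hL, y, hy, e⟩
  obtain ⟨_, ⟨a, ha, rfl⟩, hM⟩ := Set.exists_max_image _ id fin ⟨_, y, hy, rfl⟩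
  obtain ⟨_, ⟨b, hb, rfl⟩, hm⟩ := Set.exists_min_image _ id fin ⟨_, y, hy, rfl⟩
  have k1 : s.card • n L a ≤ n L a := two a ha ▸ hM _ ⟨_, by simpa using shp_nat ha 2, rfl⟩
  have k2 : n L b ≤ s.card • n L b := two b hb ▸ hm _ ⟨_, by simpa using shp_nat hb 2, rfl⟩
  have k3 : n L a ≤ 0 := not_lt.1 fun h => absurd k1 (not_le.2 (by
    simpa using nsmul_lt_nsmul_left h c2))
  have k4 : 0 ≤ n L b := not_lt.1 fun h => absurd k2 (not_le.2 (by
    simpa using nsmul_lt_nsmul_left (neg_pos.2 h) c2))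
  rw [← av_eq_zero (u0 hL hy), ← hn]
  exact le_antisymm ((hM _ ⟨y, hy, rfl⟩).trans k3) (k4.trans (hm _ ⟨y, hy, rfl⟩))

end Pool.Agent.CU.CV
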